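import Pool.Agent.U738.BN.Fin
import Pool.Agent.Z125.UN.Bnd

/-!
# From `X` to `X × 𝔾_m`
-/

set_option autoImplicit false

namespace Pool.Agent.U738.BN

open CategoryTheory AlgebraicGeometry MvPolynomial Pool.Agent.Y116.UV Pool.Agent.Z125.UN

variable {R : Type} [CommRing R] {sep : Prop} {P : Sch R → Prop}

lemma f1_range {A : Type} [CommRing A] [Algebra R A] (n : ℕ) :
    Set.range (𝟙 (aff R A) : aff R A ⟶ aff R A).left =
      {x : PrimeSpectrum A | ∃ l, f1 A n l ∉ x.asIdeal} := by
  have h1 : Set.range (𝟙 (aff R A) : aff R A ⟶ aff R A).left = Set.univ := Set.range_id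
  have h2 : {x : PrimeSpectrum A | ∃ l, f1 A n l ∉ x.asIdeal} = Set.univ := by
    rw [Set.eq_univ_iff_forall]
    intro x
    exact ⟨0, fun h => x.isPrime.ne_top ((Ideal.eq_top_iff_one _).mpr h)⟩
  exact h1.trans h2.symm

/-- Laurent polynomials as a localization. -/
noncomputable def lauAway (R A : Type) [CommRing R] [CommRing A] [Algebra R A] :
    Localization.Away (Polynomial.X : Polynomial A) ≃ₐ[R] LaurentPolynomial A :=
  have : IsScalarTower R (Polynomial A) (LaurentPolynomial A) := by
    refine IsScalarTower.of_algebraMap_eq fun r => ?_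
    rw [LaurentPolynomial.algebraMap_eq_toLaurent, Polynomial.algebraMap_apply,
      Polynomial.toLaurent_C]
    rfl
  (IsLocalization.algEquiv (Submonoid.powers (Polynomial.X : Polynomial A))
    (Localization.Away (Polynomial.X : Polynomial A)) (LaurentPolynomial A)).restrictScalars R

/-- the quotient by the variable -/
noncomputable def polyQuot (R A : Type) [CommRing R] [CommRing A] [Algebra R A] :
    (Polynomial A ⧸ Ideal.span {(Polynomial.X : Polynomial A)}) ≃ₐ[R] A :=
  ((Ideal.quotientEquivAlgOfEq A (by rw [map_zero, sub_zero] :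
    Ideal.span {(Polynomial.X : Polynomial A)} = Ideal.span {Polynomial.X - Polynomial.C 0})).trans
    (Polynomial.quotientSpanXSubCAlgEquiv (0 : A))).restrictScalars R

/-- If the property passes from `X` to `X × 𝔸^1`, then it passes from `X` to `X × 𝔾_m`. -/
lemma times_of_line
    (iso : ∀ {X Y : Sch R}, FT sep X → Nonempty (X ≅ Y) → P X → P Y)
    (opened : ∀ {Z X U : Sch R} (i : Z ⟶ X) (j : U ⟶ X), FT sep X → IsTriple i j → P Z → P X → P U)
    {A : Type} [CommRing A] [Algebra R A] [Algebra.FiniteType R A]
    (h1 : P (aff R (Polynomial A))) (h : P (aff R A)) : P (aff R (LaurentPolynomial A)) := by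
  have hf : Algebra.FiniteType R (Polynomial A) :=
    Algebra.FiniteType.trans (S := A) inferInstance inferInstance
  have hf' : Algebra.FiniteType R (Localization.Away (Polynomial.X : Polynomial A)) :=
    Algebra.FiniteType.trans (S := Polynomial A) inferInstance inferInstance
  have h2 : P (aff R (Polynomial A ⧸ Ideal.span {(Polynomial.X : Polynomial A)})) :=
    iso (ft_aff sep) ⟨affIso (polyQuot R A)⟩ h
  have h3 := opened _ _ (ft_aff sep) (triple_away (Polynomial.X : Polynomial A)) h2 h1
  exact iso (ft_aff sep) ⟨(affIso (lauAway R A)).symm⟩ h3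

/-- Properties which are closed under affine bundles. -/
theorem pos_of_bnd (hP : Bnd sep P)
    (hf : ∀ (A : Type) [CommRing A] [Algebra R A] [Module.Finite R A], P (aff R A)) : Pos sep P where
  iso := hP.iso
  total := hP.total
  finite := hf
  times A _ _ _ h := by
    have h1 := hP.bundle A (1 + 1) (f1 A 1) (aff R A) (𝟙 _)
      (inferInstanceAs (IsOpenImmersion (𝟙 (aff R A).left))) (f1_range 1) h
    have e : Jou (f1 A 1) ≃ₐ[R] Polynomial A :=
      ((jouOne A 1).trans (MvPolynomial.uniqueAlgEquiv A (Fin 1))).restrictScalars R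
    have hft : Algebra.FiniteType R (Jou (f1 A 1)) := by
      have : Algebra.FiniteType A (Jou (f1 A 1)) := inferInstance
      exact Algebra.FiniteType.trans (S := A) inferInstance this
    exact times_of_line hP.iso hP.opened (hP.iso (ft_aff sep) ⟨(affIso e).symm⟩ h1) h

end Pool.Agent.U738.BN
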