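import Pool.Agent.U738.BN.DimR
import Pool.Agent.Q282.UZ.Sys

/-!
# Families of two-term equations over bases of small dimension, and the dichotomy
-/

set_option autoImplicit false

namespace Pool.Agent.U738.BN

open CategoryTheory AlgebraicGeometry MvPolynomial Pool.Agent.Y116.UV Pool.Agent.Z125.UN
  Pool.Agent.Q282.UK Pool.Agent.Q282.UZ

variable {R : Type} [CommRing R] {sep : Prop} {P : Sch R → Prop} {N : WithBot ℕ∞}

/-- The property `P` of schemes over `R` is closed under isomorphisms and closed-open decompositions, it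
passes from `X` to `X × 𝔾_m` for affine `X`, and it is true for the affine schemes of finite type of
dimension at most `N`. -/
structure PosD (sep : Prop) (P : Sch R → Prop) (N : WithBot ℕ∞) : Prop where
  iso : ∀ {X Y : Sch R}, FT sep X → Nonempty (X ≅ Y) → P X → P Y
  total : ∀ {Z X U : Sch R} (i : Z ⟶ X) (j : U ⟶ X), FT sep X → IsTriple i j → P Z → P U → P X
  times : ∀ (A : Type) [CommRing A] [Algebra R A] [Algebra.FiniteType R A],
    P (aff R A) → P (aff R (LaurentPolynomial A))
  dim : ∀ (A : Type) [CommRing A] [Algebra R A] [Algebra.FiniteType R A], ringKrullDim A ≤ N →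
    P (aff R A)

/-- restriction to an algebra of small dimension -/
theorem posR_dn (hP : PosD sep P N) (S : Type) [CommRing S] [Algebra R S] [hft : Algebra.FiniteType R S]
    (hS : ringKrullDim S ≤ N) : PosR sep (dn R P : Sch S → Prop) := by
  refine ⟨?_, ?_, ?_, ?_⟩
  · rintro X Y hX ⟨e⟩ h
    exact hP.iso (ft_down R hX) ⟨downIso R e⟩ h
  · intro Z X U i j hX ht hZ hU
    exact hP.total (downMap R i) (downMap R j) (ft_down R hX) (triple_down R ht) hZ hU
  · intro A _ _ _ h
    let _ : Algebra R A := Algebra.compHom A (algebraMap R S)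
    have : IsScalarTower R S A := IsScalarTower.of_algebraMap_eq fun _ => rfl
    have : Algebra.FiniteType R A := Algebra.FiniteType.trans (S := S) inferInstance inferInstance
    have h1 : P (aff R A) := hP.iso (ft_down R (ft_aff sep)) ⟨downAff R A⟩ h
    have h2 := hP.times A h1
    have h3 : Algebra.FiniteType R (LaurentPolynomial A) := ft_laurent A
    exact hP.iso (ft_aff sep) ⟨(downAff R (LaurentPolynomial A)).symm⟩ h2
  · intro I f B _ _ A _ _ _ _ _ hB
    have h1 := hB.finiteType
    have h2 : Algebra.FiniteType S A := Algebra.FiniteType.trans (S := B) h1 inferInstance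
    let _ : Algebra R A := Algebra.compHom A (algebraMap R S)
    have : IsScalarTower R S A := IsScalarTower.of_algebraMap_eq fun _ => rfl
    have : Algebra.FiniteType R A := Algebra.FiniteType.trans (S := S) inferInstance inferInstance
    exact hP.iso (ft_aff sep) ⟨(downAff R A).symm⟩ (hP.dim A ((dim_lc hB A).trans hS))

/-- `P` is true for all schemes which are given by any set of polynomials with at most `t` terms, with
arbitrary coefficients in an `R`-algebra of finite type of dimension at most `N`. -/
def ForTerms (N : WithBot ℕ∞) (t : ℕ) (P : Sch R → Prop) : Prop :=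
  ∀ (S : Type) [CommRing S] [Algebra R S] [Algebra.FiniteType R S], ringKrullDim S ≤ N →
    ∀ (n : ℕ) (G : Set (MvPolynomial (Fin n) S)), (∀ g ∈ G, g.support.card ≤ t) →
      P (aff R (MvPolynomial (Fin n) S ⧸ Ideal.span G))

/-- Two-term equations over a base of small dimension. -/
theorem two_terms [IsNoetherianRing R] (hP : PosD sep P N) : ForTerms N 2 P := by
  intro S _ _ _ hS n G hG
  have hN : IsNoetherianRing S := Algebra.FiniteType.isNoetherianRing R S
  have h := two_P (posR_dn hP S hS) G hG
  exact hP.iso (ft_down R (ft_aff sep)) ⟨downAff R _⟩ h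

lemma ForTerms.mono {s t : ℕ} (hs : s ≤ t) (h : ForTerms N t P) : ForTerms N s P :=
  fun S _ _ _ hS n G hG => h S hS n G fun g hg => (hG g hg).trans hs

/-- `P` is true for all schemes over `R` given by a finite system of bilinear equations
`∑_{(i, j) ∈ E_l} x_i y_j = 0` with at most `t` terms in every equation. -/
def ForBilinear (t : ℕ) (P : Sch R → Prop) : Prop :=
  ∀ (a b c : ℕ) (E : Fin c → Finset (Fin a × Fin b)), (∀ l, (E l).card ≤ t) →
    P (aff R (MvPolynomial (Fin a ⊕ Fin b) R ⧸ Ideal.span (Set.range fun l =>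
      (∑ e ∈ E l, X (Sum.inl e.1) * X (Sum.inr e.2) : MvPolynomial (Fin a ⊕ Fin b) R))))

lemma short_card {V : Type} {g : MvPolynomial V R} (h : Short g) : g.support.card ≤ 3 := by
  classical
  obtain ⟨F, hF, rfl⟩ := h
  refine le_trans (Finset.card_le_card ?_) hF
  rw [ms]
  refine (support_sum).trans ?_
  refine Finset.biUnion_subset.mpr fun m hm => ?_
  exact support_monomial_subset.trans (Finset.singleton_subset_iff.mpr hm)

lemma bin_few {β γ : Type} (E : Finset (β × γ)) (hE : E.card ≤ 2) :
    IsBin (∑ e ∈ E, X (Sum.inl e.1) * X (Sum.inr e.2) : MvPolynomial (β ⊕ γ) R) := by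
  classical
  have ht : ∀ e : β × γ, IsTerm (X (Sum.inl e.1) * X (Sum.inr e.2) : MvPolynomial (β ⊕ γ) R) :=
    fun e => (isTerm_X _).mul (isTerm_X _)
  rcases Nat.lt_or_ge E.card 2 with h1 | h1
  · rcases Nat.lt_or_ge E.card 1 with h0 | h0
    · left
      rw [Finset.card_eq_zero.mp (show E.card = 0 by omega), Finset.sum_empty]
    · right; left
      obtain ⟨a, rfl⟩ := Finset.card_eq_one.mp (show E.card = 1 by omega)
      rw [Finset.sum_singleton]
      exact ht a
  · right; right
    obtain ⟨a, b, hab, rfl⟩ := Finset.card_eq_two.mp (show E.card = 2 by omega)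
    exact ⟨_, _, ht a, ht b, Finset.sum_pair hab⟩

lemma dim_finite_le (A : Type) [CommRing A] [Algebra R A] [Module.Finite R A] :
    ringKrullDim A ≤ ringKrullDim R := dim_lc (lc_base R) A

/-- **The dichotomy over `ℤ` and its quotients.** -/
theorem dichotomy_int [IsNoetherianRing R] (hR : Function.Surjective (Int.cast : ℤ → R))
    (hC : Clo sep P) (hP : PosD sep P N) (hd : ringKrullDim R ≤ N) (t : ℕ) :
    List.TFAE [ForTerms N t P, ForBilinear t P, t ≤ 2 ∨ ∀ X : Sch R, FT sep X → P X] := by
  tfae_have 1 → 3 := by
    intro h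
    by_cases ht : t ≤ 2
    · exact Or.inl ht
    · refine Or.inr fun X hX => ?_
      refine of_affine' hC.iso hC.total (fun A _ _ _ => ?_) X hX
      obtain ⟨n, φ, G, hs, hK, hc⟩ := short_presents hR A
      have h1 := h R hd n (G : Set (MvPolynomial (Fin n) R)) fun f hf =>
        (short_card (hc f hf)).trans (by omega)
      rw [← hK] at h1
      exact clo_alg hC (Ideal.quotientKerAlgEquivOfSurjective hs) h1
  tfae_have 3 → 1 := by
    rintro (ht | h)
    · exact (two_terms hP).mono ht
    · intro S _ _ _ hS n G _
      have h2 : Algebra.FiniteType R (MvPolynomial (Fin n) S ⧸ Ideal.span G) :=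
        Algebra.FiniteType.trans (S := S) inferInstance inferInstance
      exact h _ (ft_aff sep)
  tfae_have 2 → 3 := by
    intro h
    by_cases ht : t ≤ 2
    · exact Or.inl ht
    · exact Or.inr ((three_iff (short_presents hR) hC).mpr fun a b c E hE =>
        h a b c E fun l => (hE l).trans (by omega))
  tfae_have 3 → 2 := by
    rintro (ht | h)
    · intro a b c E hE
      have hP' : Pos sep P := ⟨hP.iso, hP.total, hP.times, fun A _ _ _ =>
        hP.dim A ((dim_finite_le (R := R) A).trans hd)⟩
      exact bin_P hP' (fun l => ∑ e ∈ E l, X (Sum.inl e.1) * X (Sum.inr e.2))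
        fun l => bin_few (E l) ((hE l).trans ht)
    · intro a b c E _
      exact h _ (ft_aff sep)
  tfae_finish

/-- **The dichotomy over a field**, with families over bases of small dimension. -/
theorem dichotomy_field {k : Type} [Field k] {P : Sch k → Prop} {T : Set k}
    (hT : Subfield.closure T = ⊤) (hC : Clo sep P) (hP : PosD sep P N) (hN : 0 ≤ N) (t : ℕ) :
    List.TFAE [ForTerms N t P, ForSystems T t P, t ≤ 2 ∨ ∀ X : Sch k, FT sep X → P X] := by
  have hd : ringKrullDim k ≤ N := by
    rw [ringKrullDim_eq_zero_of_field]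
    exact hN
  have hQ : Pos sep P := ⟨hP.iso, hP.total, hP.times, fun A _ _ _ =>
    hP.dim A ((dim_finite_le (R := k) A).trans hd)⟩
  have hdich := dichotomy hT hC hQ t
  tfae_have 1 → 3 := by
    intro h
    exact (hdich.out 0 2).mp fun n G hG => h k hd n G hG
  tfae_have 3 → 1 := by
    rintro (ht | h)
    · exact (two_terms hP).mono ht
    · intro S _ _ _ hS n G _
      have h2 : Algebra.FiniteType k (MvPolynomial (Fin n) S ⧸ Ideal.span G) :=
        Algebra.FiniteType.trans (S := S) inferInstance inferInstance
      exact h _ (ft_aff sep)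
  tfae_have 2 ↔ 3 := hdich.out 1 2
  tfae_finish

end Pool.Agent.U738.BN
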