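import Pool.Agent.U738.BN.Coef
import Pool.Agent.Q282.UK.Bil

/-!
# Systems of bilinear equations with at most three terms and coefficients in a generating set

Let `T` be a set of elements of the field `k` which generates `k` as a field.  A property of schemes
which is closed under closed-open decompositions and descends from `X × 𝔾_m` to `X` is true for all
schemes of finite type over `k` if it is true for the systems of bilinear equations with at most three
terms and coefficients in `T ∪ {1}`.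
-/

set_option autoImplicit false

open CategoryTheory CategoryTheory.Limits AlgebraicGeometry MvPolynomial Pool.Agent.Y116.UV
  Pool.Agent.Q282.UK

namespace Pool.Agent.U738.BN

variable {R : Type} [CommRing R]

/-- The polynomial `f` in the variables `x_i`, `y_j` is a bilinear form: all its monomials are of the form
`x_i y_j`. -/
def IsBilin {β γ : Type} (f : MvPolynomial (β ⊕ γ) R) : Prop :=
  ∀ m ∈ f.support, ∃ (i : β) (j : γ), m = Finsupp.single (Sum.inl i) 1 + Finsupp.single (Sum.inr j) 1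

/-- `P` is true for all schemes given by systems of bilinear equations `f_l(x, y) = 0`,
`l = 1, …, c`, where every `f_l` has at most `t` terms and its coefficients are `1` or in `S`. -/
def ForSystems (S : Set R) (t : ℕ) (P : Sch R → Prop) : Prop :=
  ∀ (a b c : ℕ) (f : Fin c → MvPolynomial (Fin a ⊕ Fin b) R),
    (∀ l, IsBilin (f l) ∧ Terms S t (f l)) →
    P (aff R (MvPolynomial (Fin a ⊕ Fin b) R ⧸ Ideal.span (Set.range f)))

/-- a monomial of bidegree `(1, 1)` -/
noncomputable def mm {β γ : Type} (q : β × γ) : β ⊕ γ →₀ ℕ :=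
  Finsupp.single (Sum.inl q.1) 1 + Finsupp.single (Sum.inr q.2) 1

lemma mm_inj {β γ : Type} : Function.Injective (mm : β × γ → β ⊕ γ →₀ ℕ) := by
  classical
  rintro ⟨i, j⟩ ⟨i', j'⟩ h
  have h1 := congrArg (fun f : β ⊕ γ →₀ ℕ => f (Sum.inl i)) h
  have h2 := congrArg (fun f : β ⊕ γ →₀ ℕ => f (Sum.inr j)) h
  simp only [mm, Finsupp.add_apply, Finsupp.single_apply] at h1 h2
  have h3 : i' = i := by
    by_contra h3
    simp [h3] at h1
  have h4 : j' = j := by
    by_contra h4
    simp [h4] at h2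
  rw [h3, h4]

lemma XX {β γ : Type} (i : β) (j : γ) : (X (Sum.inl i) * X (Sum.inr j) : MvPolynomial (β ⊕ γ) R) =
    monomial (mm (i, j)) 1 := by
  rw [X, X, monomial_mul, one_mul]
  rfl

/-- A bilinear form with at most `t` terms. -/
def BT (S : Set R) (t : ℕ) {β γ : Type} (f : MvPolynomial (β ⊕ γ) R) : Prop :=
  IsBilin f ∧ Terms S t f

lemma bt_sum (S : Set R) {β γ ι : Type} (s : Finset ι) (p : ι → β × γ) (c : ι → R)
    (hp : Set.InjOn p s) (hc : ∀ i ∈ s, c i = 1 ∨ c i ∈ S) :
    BT S s.card (∑ i ∈ s, monomial (mm (p i)) (c i)) := by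
  have h := terms_sum S s (fun i => mm (p i)) c (fun i hi j hj h => hp hi hj (mm_inj h)) hc
  refine ⟨?_, h.1⟩
  intro m hm
  obtain ⟨i, _, rfl⟩ := h.2 m hm
  exact ⟨_, _, rfl⟩

lemma bt_zero (S : Set R) (t : ℕ) {β γ : Type} : BT S t (0 : MvPolynomial (β ⊕ γ) R) := by
  refine ⟨?_, ?_, ?_⟩
  · intro m hm
    simp at hm
  · simp
  · intro m hm
    simp at hm

lemma bt_single (S : Set R) {β γ : Type} (i : β) (j : γ) :
    BT S 3 (X (Sum.inl i) * X (Sum.inr j) : MvPolynomial (β ⊕ γ) R) := by
  have h := bt_sum S ({()} : Finset Unit) (fun _ => (i, j)) (fun _ => (1 : R))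
    (fun _ _ _ _ _ => Subsingleton.elim _ _) fun _ _ => Or.inl rfl
  rw [Finset.sum_singleton, Finset.card_singleton] at h
  rw [XX]
  exact ⟨h.1, h.2.mono (by norm_num)⟩

lemma bt_pair (S : Set R) {β γ : Type} (i : β) (j : γ) (i' : β) (j' : γ) (h : ¬ (i = i' ∧ j = j')) :
    BT S 3 (X (Sum.inl i) * X (Sum.inr j) + X (Sum.inl i') * X (Sum.inr j') :
      MvPolynomial (β ⊕ γ) R) := by
  have hne : ((i, j) : β × γ) ≠ (i', j') := fun h2 => h ⟨congrArg Prod.fst h2, congrArg Prod.snd h2⟩
  have h := bt_sum S (Finset.univ : Finset (Fin 2)) ![(i, j), (i', j')] (fun _ => (1 : R)) (by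
    intro i _ j _ h
    fin_cases i <;> fin_cases j
    · rfl
    · exact absurd h hne
    · exact absurd h hne.symm
    · rfl) fun _ _ => Or.inl rfl
  rw [Fin.sum_univ_two, Finset.card_univ, Fintype.card_fin] at h
  rw [XX, XX]
  exact ⟨h.1, h.2.mono (by norm_num)⟩

lemma bt_rename {S : Set R} {t : ℕ} {β γ β' γ' : Type} {e₁ : β → β'} {e₂ : γ → γ'}
    (h₁ : Function.Injective e₁) (h₂ : Function.Injective e₂) {f : MvPolynomial (β ⊕ γ) R}
    (hf : BT S t f) : BT S t (rename (Sum.map e₁ e₂) f) := by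
  classical
  have hi : Function.Injective (Sum.map e₁ e₂) := Function.Injective.sumMap h₁ h₂
  refine ⟨?_, hf.2.rename hi⟩
  intro m hm
  rw [support_rename_of_injective hi, Finset.mem_image] at hm
  obtain ⟨a, ha, rfl⟩ := hm
  obtain ⟨i, j, rfl⟩ := hf.1 a ha
  refine ⟨e₁ i, e₂ j, ?_⟩
  rw [Finsupp.mapDomain_add, Finsupp.mapDomain_single, Finsupp.mapDomain_single]
  rfl

/-- Renaming the variables. -/
noncomputable def sysRename {β γ κ : Type} {a b c : ℕ} (e₁ : Fin a ≃ β) (e₂ : Fin b ≃ γ)
    (e₃ : Fin c ≃ κ) (f : κ → MvPolynomial (β ⊕ γ) R) :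
    (MvPolynomial (Fin a ⊕ Fin b) R ⧸ Ideal.span (Set.range fun l =>
      rename (Sum.map e₁.symm e₂.symm) (f (e₃ l)))) ≃ₐ[R]
    (MvPolynomial (β ⊕ γ) R ⧸ Ideal.span (Set.range f)) :=
  Ideal.quotientEquivAlg _ _ (renameEquiv R (Equiv.sumCongr e₁ e₂)) (by
    rw [Ideal.map_span, ← Set.range_comp]
    have h : f ∘ e₃ = ((renameEquiv R (Equiv.sumCongr e₁ e₂) :
        MvPolynomial (Fin a ⊕ Fin b) R →+* MvPolynomial (β ⊕ γ) R)) ∘ (fun l =>
          rename (Sum.map e₁.symm e₂.symm) (f (e₃ l))) := by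
      funext l
      change f (e₃ l) = rename (Equiv.sumCongr e₁ e₂) (rename (Sum.map e₁.symm e₂.symm) (f (e₃ l)))
      rw [rename_rename]
      have h2 : (Equiv.sumCongr e₁ e₂ : Fin a ⊕ Fin b → β ⊕ γ) ∘ Sum.map e₁.symm e₂.symm = id := by
        funext x
        rcases x with x | x <;> simp
      rw [h2, rename_id_apply]
    have h2 : Set.range f = Set.range (f ∘ e₃) := (e₃.surjective.range_comp _).symm
    rw [h2, h])

section

variable {S : Set R} {sep : Prop} {P : Sch R → Prop} (hP : Clo sep P) (hH : ForSystems S 3 P)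

include hP hH

lemma clo_sys {β γ κ : Type} [Fintype β] [Fintype γ] [Fintype κ] (f : κ → MvPolynomial (β ⊕ γ) R)
    (hf : ∀ k, BT S 3 (f k)) :
    P (aff R (MvPolynomial (β ⊕ γ) R ⧸ Ideal.span (Set.range f))) :=
  clo_alg hP (sysRename (Fintype.equivFin β).symm (Fintype.equivFin γ).symm
    (Fintype.equivFin κ).symm f) (hH _ _ _ _ fun _ =>
      bt_rename (Equiv.injective _) (Equiv.injective _) (hf _))

omit hP hH in
lemma eqs_bt {n D : ℕ} (hD : 1 ≤ D) (G : Finset (MvPolynomial (Fin n) R))
    (hc : ∀ g ∈ G, Terms S 3 g)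
    (k : Mon n D ⊕ (Mon n D × Fin n) ⊕ G) : BT S 3 (eqs hD G k) := by
  classical
  rcases k with m | ⟨m, i⟩ | g
  · rw [eqs_lin]
    split_ifs with h
    · exact bt_zero S 3
    · exact bt_pair S _ _ _ _ fun h2 => h h2.1
  · rw [eqs_mul]
    split_ifs with h
    · exact bt_pair S _ _ _ _ fun h2 => me_ne hD i h2.2
    · exact bt_zero S 3
  · let s : Finset (Mon n D) := Finset.univ.filter fun m => m.1 ∈ g.1.support
    have hs : s.card ≤ 3 := by
      refine le_trans ?_ (hc g.1 g.2).1
      refine Finset.card_le_card_of_injOn (fun m => m.1) ?_ ?_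
      · intro m hm
        exact (Finset.mem_filter.mp hm).2
      · intro m _ m' _ h
        exact Subtype.ext h
    have h := bt_sum S s (fun m => (m, mo n D)) (fun m => coeff m.1 g.1)
      (fun _ _ _ _ h => congrArg Prod.fst h)
      (fun m hm => (hc g.1 g.2).2 m.1 (Finset.mem_filter.mp hm).2)
    have h1 : eqs hD G (Sum.inr (Sum.inr g)) =
        ∑ m ∈ s, monomial (mm (m, mo n D)) (coeff m.1 g.1) := by
      change ∑ m : Mon n D, C (coeff m.1 g.1) * (uu R m * vv R (mo n D)) = _
      rw [Finset.sum_filter]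
      apply Finset.sum_congr rfl
      intro m _
      rw [uu, vv, XX, C_mul_monomial, mul_one]
      split_ifs with h2
      · rfl
      · rw [notMem_support_iff.mp h2, map_zero]
    rw [h1]
    exact ⟨h.1, h.2.mono hs⟩

lemma sys_cone {A : Type} [CommRing A] [Algebra R A] [Algebra.FiniteType R A] {n D : ℕ} (hD : 1 ≤ D)
    (G : Finset (MvPolynomial (Fin n) R)) (φ : MvPolynomial (Fin n) R →ₐ[R] A)
    (hd : ∀ g ∈ G, ∀ m ∈ g.support, m.degree ≤ D) (hs : Function.Surjective φ)
    (hK : RingHom.ker φ = Ideal.span (G : Set (MvPolynomial (Fin n) R)))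
    (hc : ∀ g ∈ G, Terms S 3 g) : P (aff R A) := by
  classical
  have hG : ∀ g ∈ G, φ g = 0 := by
    intro g hg
    have : g ∈ RingHom.ker φ := by
      rw [hK]
      exact Ideal.subset_span hg
    exact this
  have hA : P (aff R (Cone hD G)) := clo_sys hP hH (eqs hD G) (eqs_bt hD G hc)
  let f' : Option (Mon n D ⊕ (Mon n D × Fin n) ⊕ G) → UVRing R n D := fun k =>
    k.elim (uu R (mo n D) * vv R (mo n D)) (eqs hD G)
  have h2 : P (aff R (UVRing R n D ⧸ Ideal.span (Set.range f'))) := by
    apply clo_sys hP hH f'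
    rintro (_ | k)
    · exact bt_single S _ _
    · exact eqs_bt hD G hc k
  have h3 : Ideal.span (Set.range f') =
      eqI hD G ⊔ Ideal.span {uu R (mo n D) * vv R (mo n D)} := by
    rw [eqI, ← Ideal.span_union]
    congr 1
    ext x
    constructor
    · rintro ⟨_ | k, rfl⟩
      · exact Or.inr rfl
      · exact Or.inl ⟨k, rfl⟩
    · rintro (⟨k, rfl⟩ | rfl)
      · exact ⟨some k, rfl⟩
      · exact ⟨none, rfl⟩
  rw [h3] at h2
  have h4 : P (aff R (Cone hD G ⧸ Ideal.span {cw hD G})) := by
    have e := (DoubleQuot.quotQuotEquivQuotSupₐ R (eqI hD G)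
      (Ideal.span {uu R (mo n D) * vv R (mo n D)})).symm
    have h5 := clo_alg (B := Cone hD G ⧸ Ideal.map (Ideal.Quotient.mkₐ R (eqI hD G))
      (Ideal.span {uu R (mo n D) * vv R (mo n D)})) hP e h2
    have h6 : Ideal.map (Ideal.Quotient.mkₐ R (eqI hD G))
        (Ideal.span {uu R (mo n D) * vv R (mo n D)}) = Ideal.span {cw hD G} := by
      rw [Ideal.map_span, Set.image_singleton]
      rfl
    rw [← h6]
    exact h5
  have h5 : P (aff R (LCone hD G)) := hP.opened _ _ (ft_aff sep) (triple_away (cw hD G)) h4 hA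
  have h6 : Algebra.FiniteType R (LCone hD G) :=
    Algebra.FiniteType.trans (S := Cone hD G) inferInstance inferInstance
  have h7 := ft_laurent (R := R) A
  exact hP.torus A (hP.torus _ (clo_alg hP (coneEquiv hD G φ hG hd hs hK) h5))

end

/-- **Universality of three terms**: if `T` generates the field `k`, then a property which is closed under
closed-open decompositions and under passing from `X × 𝔾_m` to `X` is true for every (separated) scheme of
finite type over `k` if and only if it is true for the systems of bilinear equations with at most three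
terms and coefficients in `T ∪ {1}`. -/
theorem sys_iff {k : Type} [Field k] {T : Set k} (hT : Subfield.closure T = ⊤) {sep : Prop}
    {P : Sch k → Prop} (hP : Clo sep P) : (∀ X : Sch k, FT sep X → P X) ↔ ForSystems T 3 P := by
  constructor
  · intro h a b c f _
    exact h _ (ft_aff sep)
  · intro h X hX
    refine of_affine' hP.iso hP.total (fun A _ _ _ => ?_) X hX
    obtain ⟨n, φ, G, hs, hK, hc⟩ := presentsQ hT A
    let D : ℕ := 1 + ∑ g ∈ G, ∑ m ∈ g.support, m.degree
    refine sys_cone hP h (D := D) (by omega) G φ ?_ hs hK hc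
    intro g hg m hm
    have h1 : m.degree ≤ ∑ m ∈ g.support, m.degree :=
      Finset.single_le_sum (f := fun m : Fin n →₀ ℕ => m.degree) (fun _ _ => Nat.zero_le _) hm
    have h2 : ∑ m ∈ g.support, m.degree ≤ ∑ g ∈ G, ∑ m ∈ g.support, m.degree :=
      Finset.single_le_sum (f := fun g : MvPolynomial (Fin n) k => ∑ m ∈ g.support, m.degree)
        (fun _ _ => Nat.zero_le _) hg
    omega

end Pool.Agent.U738.BN
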