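import Pool.Agent.U738.BN.Bnd
import Pool.Agent.U738.BN.Sys
import Pool.Agent.Z125.UN.Dim2

/-!
# The number of terms: a dichotomy

Let `P` be a property of schemes of finite type over a field `k` which is closed under closed-open
decompositions, stable under products with `𝔾_m` and descends from `X × 𝔾_m` to `X`, and which is true for
the finite schemes over `k`.  Then `P` is true for all systems of polynomial equations with at most
`t` terms if and only if `t ≤ 2` or `P` is true for all schemes of finite type over `k`; and bilinear
equations with coefficients in a set of generators of the field are sufficient.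
-/

set_option autoImplicit false

namespace Pool.Agent.U738.BN

open CategoryTheory AlgebraicGeometry MvPolynomial Pool.Agent.Y116.UV Pool.Agent.Q282.UK
  Pool.Agent.Z125.UN

variable {k : Type} [Field k]

/-- Over a field every polynomial with at most two terms is a binomial. -/
lemma isBin_of_card {σ : Type} {f : MvPolynomial σ k} (h : f.support.card ≤ 2) : IsBin f := by
  classical
  have hterm : ∀ a ∈ f.support, IsTerm (monomial a (coeff a f)) := fun a ha =>
    ⟨a, Units.mk0 _ (mem_support_iff.mp ha), rfl⟩
  have hsum : f = ∑ a ∈ f.support, monomial a (coeff a f) := (support_sum_monomial_coeff f).symm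
  have h3 : f.support.card = 0 ∨ f.support.card = 1 ∨ f.support.card = 2 := by omega
  rcases h3 with h0 | h1 | h2
  · rw [Finset.card_eq_zero, support_eq_empty] at h0
    exact Or.inl h0
  · obtain ⟨a, ha⟩ := Finset.card_eq_one.mp h1
    refine Or.inr (Or.inl ?_)
    rw [ha, Finset.sum_singleton] at hsum
    rw [hsum]
    have := hterm a (by rw [ha]; exact Finset.mem_singleton_self a)
    rwa [← hsum] at this ⊢
  · obtain ⟨a, b, hab, hs⟩ := Finset.card_eq_two.mp h2
    refine Or.inr (Or.inr ⟨monomial a (coeff a f), monomial b (coeff b f), hterm a ?_, hterm b ?_, ?_⟩)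
    · rw [hs]
      exact Finset.mem_insert_self _ _
    · rw [hs]
      exact Finset.mem_insert_of_mem (Finset.mem_singleton_self _)
    · rw [hs, Finset.sum_pair hab] at hsum
      exact hsum

/-- `P` is true for all closed subschemes of affine spaces given by equations with at most `t` terms
(arbitrary coefficients and exponents, arbitrary number of equations). -/
def ForEquations (t : ℕ) (P : Sch k → Prop) : Prop :=
  ∀ (n : ℕ) (G : Set (MvPolynomial (Fin n) k)), (∀ f ∈ G, f.support.card ≤ t) →
    P (aff k (MvPolynomial (Fin n) k ⧸ Ideal.span G))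

variable {sep : Prop} {P : Sch k → Prop}

lemma two_equations (hQ : Pos sep P) : ForEquations 2 P := by
  intro n G hG
  have h := bin_P hQ (fun f : G => f.1) fun f => isBin_of_card (hG f.1 f.2)
  rwa [Subtype.range_coe] at h

lemma two_systems (hQ : Pos sep P) (T : Set k) : ForSystems T 2 P := fun _ _ _ f hf =>
  bin_P hQ f fun l => isBin_of_card (hf l).2.1

/-- **The dichotomy.** -/
theorem dichotomy {T : Set k} (hT : Subfield.closure T = ⊤) (hP : Clo sep P) (hQ : Pos sep P)
    (t : ℕ) : List.TFAE [ForEquations t P, ForSystems T t P, t ≤ 2 ∨ ∀ X : Sch k, FT sep X → P X] := by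
  have hmono : ∀ {s}, s ≤ t → ForEquations t P → ForEquations s P := fun hs h n G hG =>
    h n G fun f hf => (hG f hf).trans hs
  tfae_have 1 → 3 := by
    intro h
    by_cases ht : t ≤ 2
    · exact Or.inl ht
    · refine Or.inr fun X hX => ?_
      refine of_affine' hP.iso hP.total (fun A _ _ _ => ?_) X hX
      obtain ⟨n, φ, G, hs, hK, hc⟩ := presentsQ hT A
      have h1 := hmono (show 3 ≤ t by omega) h n (G : Set (MvPolynomial (Fin n) k))
        fun f hf => (hc f hf).1
      rw [← hK] at h1
      exact clo_alg hP (Ideal.quotientKerAlgEquivOfSurjective hs) h1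
  tfae_have 3 → 1 := by
    rintro (ht | h)
    · intro n G hG
      exact two_equations hQ n G fun f hf => (hG f hf).trans ht
    · intro n G _
      exact h _ (ft_aff sep)
  tfae_have 2 → 3 := by
    intro h
    by_cases ht : t ≤ 2
    · exact Or.inl ht
    · exact Or.inr ((sys_iff hT hP).mpr fun a b c f hf =>
        h a b c f fun l => ⟨(hf l).1, (hf l).2.mono (by omega)⟩)
  tfae_have 3 → 2 := by
    rintro (ht | h)
    · intro a b c f hf
      exact two_systems hQ T a b c f fun l => ⟨(hf l).1, (hf l).2.mono ht⟩
    · intro a b c f _
      exact h _ (ft_aff sep)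
  tfae_finish

/-- The spectrum of a finite algebra over a field has dimension at most zero. -/
lemma dim_finite (A : Type) [CommRing A] [Algebra k A] [Module.Finite k A] :
    topologicalKrullDim (aff k A).left ≤ 0 := by
  rw [topDim_aff]
  have : IsArtinianRing A := IsArtinianRing.of_finite k A
  have h : Ring.KrullDimLE 0 A := inferInstance
  exact_mod_cast Ring.krullDimLE_iff.mp h

/-- Every algebra of finite type has finite dimension. -/
lemma exists_dim_le (A : Type) [CommRing A] [Algebra k A] [Algebra.FiniteType k A] :
    ∃ N : ℕ, topologicalKrullDim (aff k A).left ≤ N := by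
  obtain ⟨n, f, hf⟩ := Algebra.FiniteType.iff_quotient_mvPolynomial''.mp
    (inferInstance : Algebra.FiniteType k A)
  refine ⟨n, ?_⟩
  rw [topDim_aff]
  refine (ringKrullDim_le_of_surjective (f : MvPolynomial (Fin n) k →+* A) hf).trans ?_
  rw [MvPolynomial.ringKrullDim_of_isNoetherianRing, ringKrullDim_eq_zero_of_field, zero_add,
    Nat.card_fin]

end Pool.Agent.U738.BN
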