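import Pool.Agent.U738.BN.Two

/-!
# Two-term equations over a noetherian base

A property of schemes over a noetherian ring `R` which is closed under closed-open decompositions, which
passes from `X` to `X × 𝔾_m`, and which is true for the finite schemes over the locally closed
subschemes of `Spec R`, is true for all closed subschemes of affine spaces over `R` given by equations
with at most two terms, with arbitrary coefficients in `R`.
-/

set_option autoImplicit false

namespace Pool.Agent.U738.BN

open CategoryTheory AlgebraicGeometry MvPolynomial Pool.Agent.Y116.UV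

section

variable {R : Type} [CommRing R] {I : Ideal R} {f : R} {B : Type} [CommRing B] [Algebra R B]

lemma lc_base (R : Type) [CommRing R] : LC (⊥ : Ideal R) (1 : R) R where
  zero r hr := by
    rw [Ideal.mem_bot.mp hr, map_zero]
  unit := by
    rw [map_one]
    exact isUnit_one
  num b := ⟨b, 0, by rw [pow_zero, mul_one]; rfl⟩
  ker r hr := ⟨0, by
    have : r = 0 := hr
    rw [this, mul_zero]
    exact Ideal.zero_mem _⟩

lemma lc_quot (hB : LC I f B) (r : R) :
    LC (I ⊔ Ideal.span {r}) f (B ⧸ Ideal.span {algebraMap R B r}) where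
  zero s hs := by
    obtain ⟨i, hi, t, ht, rfl⟩ := Submodule.mem_sup.mp hs
    obtain ⟨c, rfl⟩ := Ideal.mem_span_singleton'.mp ht
    rw [IsScalarTower.algebraMap_apply R B (B ⧸ Ideal.span {algebraMap R B r}), map_add,
      hB.zero i hi, zero_add, map_mul]
    exact Ideal.Quotient.eq_zero_iff_mem.mpr
      (Ideal.mul_mem_left _ _ (Ideal.mem_span_singleton_self _))
  unit := by
    rw [IsScalarTower.algebraMap_apply R B (B ⧸ Ideal.span {algebraMap R B r})]
    exact hB.unit.map _
  num b := by
    obtain ⟨b, rfl⟩ := Ideal.Quotient.mk_surjective b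
    obtain ⟨c, k, h⟩ := hB.num b
    refine ⟨c, k, ?_⟩
    rw [IsScalarTower.algebraMap_apply R B _ f, IsScalarTower.algebraMap_apply R B _ c, ← h]
    rw [map_mul, map_pow]
    rfl
  ker s hs := by
    rw [IsScalarTower.algebraMap_apply R B (B ⧸ Ideal.span {algebraMap R B r})] at hs
    have h1 := Ideal.Quotient.eq_zero_iff_mem.mp hs
    obtain ⟨b, hb⟩ := Ideal.mem_span_singleton'.mp h1
    obtain ⟨c, k, h⟩ := hB.num b
    have h2 : algebraMap R B (f ^ k * s - c * r) = 0 := by
      rw [map_sub, map_mul, map_mul, map_pow, ← hb, ← h]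
      ring
    obtain ⟨m, hm⟩ := hB.ker _ h2
    refine ⟨m + k, ?_⟩
    have h3 : f ^ (m + k) * s = f ^ m * (f ^ k * s - c * r) + f ^ m * c * r := by ring
    rw [h3]
    exact Ideal.add_mem _ (Ideal.mem_sup_left hm)
      (Ideal.mem_sup_right (Ideal.mul_mem_left _ _ (Ideal.mem_span_singleton_self _)))

lemma lc_loc (hB : LC I f B) (r : R) (B' : Type) [CommRing B'] [Algebra R B'] [Algebra B B']
    [IsScalarTower R B B'] [h0 : IsLocalization.Away (algebraMap R B r) B'] :
    LC I (f * r) B' where
  zero s hs := by
    rw [IsScalarTower.algebraMap_apply R B, hB.zero s hs, map_zero]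
  unit := by
    rw [map_mul]
    refine IsUnit.mul ?_ ?_
    · rw [IsScalarTower.algebraMap_apply R B]
      exact hB.unit.map _
    · rw [IsScalarTower.algebraMap_apply R B]
      exact IsLocalization.Away.algebraMap_isUnit (algebraMap R B r)
  num b := by
    obtain ⟨k, b, hk⟩ := IsLocalization.Away.surj (algebraMap R B r) b
    obtain ⟨c, l, h⟩ := hB.num b
    refine ⟨c * r ^ l * f ^ k, k + l, ?_⟩
    have h1 : algebraMap R B' c = algebraMap B B' b * algebraMap R B' f ^ l := by
      rw [IsScalarTower.algebraMap_apply R B B' c, ← h, map_mul, map_pow,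
        ← IsScalarTower.algebraMap_apply]
    rw [map_mul, map_mul, map_mul, map_pow, map_pow, h1, ← hk, ← IsScalarTower.algebraMap_apply]
    ring
  ker s hs := by
    rw [IsScalarTower.algebraMap_apply R B] at hs
    obtain ⟨⟨_, m, rfl⟩, hm⟩ := (IsLocalization.map_eq_zero_iff
      (Submonoid.powers (algebraMap R B r)) B' _).mp hs
    have h2 : algebraMap R B (r ^ m * s) = 0 := by
      rw [map_mul, map_pow]
      exact hm
    obtain ⟨k, hk⟩ := hB.ker _ h2
    refine ⟨k + m, ?_⟩
    have h3 : (f * r) ^ (k + m) * s = (f ^ m * r ^ k) * (f ^ k * (r ^ m * s)) := by ring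
    rw [h3]
    exact Ideal.mul_mem_left _ _ hk

lemma lc_up (hB : LC I f B) (b : R) (hb : algebraMap R B b = 0) :
    LC (I ⊔ Ideal.span {b}) f B where
  zero s hs := by
    obtain ⟨i, hi, t, ht, rfl⟩ := Submodule.mem_sup.mp hs
    obtain ⟨c, rfl⟩ := Ideal.mem_span_singleton'.mp ht
    rw [map_add, hB.zero i hi, map_mul, hb, mul_zero, add_zero]
  unit := hB.unit
  num := hB.num
  ker s hs := by
    obtain ⟨k, hk⟩ := hB.ker s hs
    exact ⟨k, Ideal.mem_sup_left hk⟩

lemma lt_sup {r : R} (h : r ∉ I) : I < I ⊔ Ideal.span {r} := by
  refine lt_of_le_of_ne le_sup_left fun he => h ?_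
  rw [he]
  exact Ideal.mem_sup_right (Ideal.mem_span_singleton_self r)

variable {A : Type} [CommRing A] [Algebra R A] [Algebra B A] [IsScalarTower R B A]

/-- The algebra structure of the closed part. -/
@[instance_reducible] noncomputable def algQ (B A : Type) [CommRing B] [CommRing A] [Algebra R B] [Algebra R A]
    [Algebra B A] [IsScalarTower R B A] (r : R) :
    Algebra (B ⧸ Ideal.span {algebraMap R B r}) (A ⧸ Ideal.span {algebraMap R A r}) :=
  (Ideal.Quotient.lift (Ideal.span {algebraMap R B r})
    ((Ideal.Quotient.mk (Ideal.span {algebraMap R A r})).comp (algebraMap B A)) (by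
      intro b hb
      obtain ⟨c, rfl⟩ := Ideal.mem_span_singleton'.mp hb
      rw [RingHom.comp_apply, map_mul, ← IsScalarTower.algebraMap_apply R B A]
      exact Ideal.Quotient.eq_zero_iff_mem.mpr
        (Ideal.mul_mem_left _ _ (Ideal.mem_span_singleton_self _)))).toAlgebra

/-- The algebra structure of the open part. -/
@[instance_reducible] noncomputable def algL (B A : Type) [CommRing B] [CommRing A] [Algebra R B] [Algebra R A]
    [Algebra B A] [IsScalarTower R B A] (r : R) :
    Algebra (Localization.Away (algebraMap R B r)) (Localization.Away (algebraMap R A r)) :=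
  (IsLocalization.Away.lift (S := Localization.Away (algebraMap R B r)) (algebraMap R B r)
    (g := (algebraMap A (Localization.Away (algebraMap R A r))).comp (algebraMap B A)) (by
      rw [RingHom.comp_apply, ← IsScalarTower.algebraMap_apply R B A]
      exact IsLocalization.Away.algebraMap_isUnit (algebraMap R A r))).toAlgebra

lemma towerQ (r : R) : letI := algQ B A r
    IsScalarTower B (B ⧸ Ideal.span {algebraMap R B r}) (A ⧸ Ideal.span {algebraMap R A r}) ∧
    IsScalarTower R (B ⧸ Ideal.span {algebraMap R B r}) (A ⧸ Ideal.span {algebraMap R A r}) := by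
  let _ := algQ B A r
  have h1 : IsScalarTower B (B ⧸ Ideal.span {algebraMap R B r})
      (A ⧸ Ideal.span {algebraMap R A r}) := IsScalarTower.of_algebraMap_eq fun b => rfl
  refine ⟨h1, IsScalarTower.of_algebraMap_eq fun c => ?_⟩
  change Ideal.Quotient.mk _ (algebraMap R A c) = Ideal.Quotient.mk _
    (algebraMap B A (algebraMap R B c))
  rw [← IsScalarTower.algebraMap_apply]

lemma towerL (r : R) : letI := algL B A r
    IsScalarTower B (Localization.Away (algebraMap R B r)) (Localization.Away (algebraMap R A r)) ∧
    IsScalarTower R (Localization.Away (algebraMap R B r))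
      (Localization.Away (algebraMap R A r)) := by
  let _ := algL B A r
  have h1 : IsScalarTower B (Localization.Away (algebraMap R B r))
      (Localization.Away (algebraMap R A r)) := IsScalarTower.of_algebraMap_eq fun b => by
    change _ = IsLocalization.Away.lift _ _ _
    rw [IsLocalization.Away.lift_eq]
    rfl
  refine ⟨h1, IsScalarTower.of_algebraMap_eq fun c => ?_⟩
  rw [IsScalarTower.algebraMap_apply R B (Localization.Away (algebraMap R B r)),
    ← IsScalarTower.algebraMap_apply B (Localization.Away (algebraMap R B r)),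
    IsScalarTower.algebraMap_apply R A (Localization.Away (algebraMap R A r)),
    IsScalarTower.algebraMap_apply B A (Localization.Away (algebraMap R A r)),
    ← IsScalarTower.algebraMap_apply R B A]

lemma term_quot {t : ℕ} (h : TermT t B A) (r : R) : letI := algQ B A r
    TermT t (B ⧸ Ideal.span {algebraMap R B r}) (A ⧸ Ideal.span {algebraMap R A r}) := by
  let _ := algQ B A r
  have h1 := (towerQ (B := B) (A := A) r).1
  obtain ⟨n, φ, G, hs, hG, hK⟩ := h
  refine ⟨n, bφ φ _ _, map (algebraMap B _) '' G,
    quot_surj φ hs Ideal.Quotient.mk_surjective, ?_,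
    quot_ker φ hK (algebraMap R B r) hs Ideal.Quotient.mk_surjective ?_ ?_⟩
  · rintro _ ⟨g, hg, rfl⟩
    exact card_map (hG g hg)
  · exact Ideal.Quotient.eq_zero_iff_mem.mpr (Ideal.mem_span_singleton_self _)
  · intro a ha
    obtain ⟨c, hc⟩ := Ideal.mem_span_singleton'.mp (Ideal.Quotient.eq_zero_iff_mem.mp ha)
    exact ⟨c, by rw [← IsScalarTower.algebraMap_apply R B A, ← hc, mul_comm]⟩

lemma term_loc {t : ℕ} (h : TermT t B A) (r : R) : letI := algL B A r
    TermT t (Localization.Away (algebraMap R B r)) (Localization.Away (algebraMap R A r)) := by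
  let _ := algL B A r
  have h1 := (towerL (B := B) (A := A) r).1
  obtain ⟨n, φ, G, hs, hG, hK⟩ := h
  have ha : IsLocalization.Away (algebraMap B A (algebraMap R B r))
      (Localization.Away (algebraMap R A r)) := by
    rw [← IsScalarTower.algebraMap_apply R B A]
    infer_instance
  refine ⟨n, bφ φ _ _, map (algebraMap B _) '' G,
    loc_surj φ (algebraMap R B r) inferInstance ha hs, ?_,
    loc_ker φ (algebraMap R B r) inferInstance ha hK⟩
  rintro _ ⟨g, hg, rfl⟩
  exact card_map (hG g hg)

end

/-- Polynomials with unit coefficients. -/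
lemma isBin_unit {S : Type} [CommRing S] {σ : Type} (q : MvPolynomial σ S)
    (h : q.support.card ≤ 2) (hu : ∀ m ∈ q.support, IsUnit (coeff m q)) : IsBin q := by
  classical
  have hsum := support_sum_monomial_coeff q
  have hterm : ∀ m, m ∈ q.support → IsTerm (monomial m (coeff m q)) := fun m hm =>
    ⟨m, (hu m hm).unit, rfl⟩
  rcases Nat.lt_or_ge q.support.card 2 with h1 | h1
  · rcases Nat.lt_or_ge q.support.card 1 with h0 | h0
    · left
      have : q.support = ∅ := Finset.card_eq_zero.mp (by omega)
      rwa [MvPolynomial.support_eq_empty] at this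
    · right; left
      obtain ⟨a, ha⟩ := Finset.card_eq_one.mp (show q.support.card = 1 by omega)
      rw [ha, Finset.sum_singleton] at hsum
      rw [← hsum]
      exact hterm a (by rw [ha]; exact Finset.mem_singleton_self a)
  · right; right
    obtain ⟨a, b, hab, hs⟩ := Finset.card_eq_two.mp (show q.support.card = 2 by omega)
    refine ⟨_, _, hterm a ?_, hterm b ?_, ?_⟩
    · rw [hs]
      exact Finset.mem_insert_self _ _
    · rw [hs]
      exact Finset.mem_insert_of_mem (Finset.mem_singleton_self _)
    · rw [hs, Finset.sum_pair hab] at hsum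
      exact hsum.symm

section main

variable {R : Type} [CommRing R] {sep : Prop} {P : Sch R → Prop}

/-- the decomposition given by an element of the base -/
lemma split_P (hP : PosR sep P) {A : Type} [CommRing A] [Algebra R A] [Algebra.FiniteType R A] (r : R)
    (h1 : P (aff R (A ⧸ Ideal.span {algebraMap R A r})))
    (h2 : P (aff R (Localization.Away (algebraMap R A r)))) : P (aff R A) :=
  hP.total _ _ (ft_aff sep) (triple_away (algebraMap R A r)) h1 h2

lemma ft_term {t : ℕ} {B A : Type} [CommRing B] [CommRing A] [Algebra B A] (h : TermT t B A) :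
    Algebra.FiniteType B A := by
  obtain ⟨n, φ, G, hs, -, -⟩ := h
  exact Algebra.FiniteType.of_surjective φ hs

/-- the case in which all coefficients are units or zero -/
lemma unit_P (hP : PosR sep P) {I : Ideal R} {f : R} {B A : Type} [CommRing B] [CommRing A]
    [Algebra R B] [Algebra R A] [Algebra B A] [IsScalarTower R B A] (hB : LC I f B) {n : ℕ}
    (φ : MvPolynomial (Fin n) B →ₐ[B] A) (G : Set (MvPolynomial (Fin n) B))
    (hs : Function.Surjective φ) (hG : ∀ g ∈ G, IsBin g) (hK : RingHom.ker φ = Ideal.span G) :
    P (aff R A) := by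
  have hft := hB.finiteType
  have h1 := bin_P (pos_dn hP hB) (fun g : G => g.1) fun g => hG g.1 g.2
  rw [Subtype.range_coe, ← hK] at h1
  have h2 := pos_alg (pos_dn hP hB) (Ideal.quotientKerAlgEquivOfSurjective hs) h1
  have hft2 : Algebra.FiniteType B A := Algebra.FiniteType.of_surjective φ hs
  exact hP.iso (ft_down R (ft_aff sep)) ⟨downAff R A⟩ h2

/-- **Two-term equations over a noetherian base.** -/
theorem term_base [IsNoetherianRing R] (hP : PosR sep P) (I : Ideal R) :
    ∀ (f : R) (B : Type) [CommRing B] [Algebra R B], LC I f B →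
    ∀ (A : Type) [CommRing A] [Algebra R A] [Algebra B A] [IsScalarTower R B A],
      TermT 2 B A → P (aff R A) := by
  classical
  refine IsNoetherian.induction (P := fun I : Ideal R =>
    ∀ (f : R) (B : Type) [CommRing B] [Algebra R B], LC I f B →
    ∀ (A : Type) [CommRing A] [Algebra R A] [Algebra B A] [IsScalarTower R B A],
      TermT 2 B A → P (aff R A)) ?_ I
  intro I ih f B _ _ hB A _ _ _ _ hA
  have hftB := hB.finiteType
  have hftA' := ft_term hA
  have hftA : Algebra.FiniteType R A := Algebra.FiniteType.trans (S := B) hftB hftA'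
  by_cases htop : I = ⊤
  · have h1 : (1 : B) = 0 := by
      rw [← map_one (algebraMap R B)]
      exact hB.zero 1 (by rw [htop]; trivial)
    have h2 : Subsingleton B := subsingleton_of_zero_eq_one h1.symm
    have h3 : Subsingleton A := Module.subsingleton B A
    have h4 : Module.Finite B A := ⟨⟨∅, by
      rw [eq_top_iff]
      rintro x -
      rw [Subsingleton.elim x 0]
      exact Submodule.zero_mem _⟩⟩
    exact hP.quasi I f B A hB
  by_cases hp : Ideal.IsPrime I
  · -- the prime case
    obtain ⟨n, φ, G, hs, hG, hK⟩ := hA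
    have hN : IsNoetherianRing B := Algebra.FiniteType.isNoetherianRing R B
    have hfg : (Ideal.span G).FG := (isNoetherianRing_iff_ideal_fg _).mp inferInstance _
    obtain ⟨G0, hG0, hspan⟩ := (Submodule.fg_span_iff_fg_span_finset_subset G).mp hfg
    have hK0 : RingHom.ker φ = Ideal.span (G0 : Set (MvPolynomial (Fin n) B)) := by
      rw [hK]
      exact hspan
    choose N k hNk using hB.num
    have hN0 : ∀ c : B, c ≠ 0 → N c ∉ I := by
      intro c hc hI
      apply hc
      have h1 : c * algebraMap R B f ^ k c = 0 := by rw [hNk, hB.zero _ hI]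
      exact (hB.unit.pow (k c)).mul_left_eq_zero.mp h1
    let g0 : R := ∏ g ∈ G0, ∏ m ∈ g.support, N (coeff m g)
    have hg0 : g0 ∉ I := by
      intro h
      obtain ⟨g, hg, h⟩ := (Ideal.IsPrime.prod_mem_iff (hp := hp)).mp h
      obtain ⟨m, hm, h⟩ := (Ideal.IsPrime.prod_mem_iff (hp := hp)).mp h
      exact hN0 _ (mem_support_iff.mp hm) h
    have hdvd : ∀ g ∈ G0, ∀ m ∈ g.support, N (coeff m g) ∣ g0 := by
      intro g hg m hm
      exact (Finset.dvd_prod_of_mem (fun m => N (coeff m g)) hm).trans
        (Finset.dvd_prod_of_mem (fun g : MvPolynomial (Fin n) B =>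
          ∏ m ∈ g.support, N (coeff m g)) hg)
    refine split_P hP g0 ?_ ?_
    · let _ := algQ B A g0
      have h1 := towerQ (B := B) (A := A) g0
      have := h1.2
      exact ih _ (lt_sup hg0) f _ (lc_quot hB g0) _
        (term_quot ⟨n, φ, G, hs, hG, hK⟩ g0)
    · let _ := algL B A g0
      have h1 := towerL (B := B) (A := A) g0
      have h2 := h1.1
      have h3 := h1.2
      have ha : IsLocalization.Away (algebraMap B A (algebraMap R B g0))
          (Localization.Away (algebraMap R A g0)) := by
        rw [← IsScalarTower.algebraMap_apply R B A]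
        infer_instance
      refine unit_P hP (lc_loc hB g0 (Localization.Away (algebraMap R B g0)))
        (bφ φ (Localization.Away (algebraMap R B g0)) (Localization.Away (algebraMap R A g0)))
        (map (algebraMap B (Localization.Away (algebraMap R B g0))) '' G0)
        (loc_surj φ (algebraMap R B g0) inferInstance ha hs) ?_
        (loc_ker φ (algebraMap R B g0) inferInstance ha hK0)
      rintro _ ⟨g, hg, rfl⟩
      refine isBin_unit _ (card_map (hG g (hG0 hg))) ?_
      intro m hm
      rw [coeff_map]
      have hm' : m ∈ g.support := support_map_subset _ _ hm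
      have hu : IsUnit (algebraMap B (Localization.Away (algebraMap R B g0))
          (algebraMap R B (N (coeff m g)))) := by
        obtain ⟨c, hc⟩ := hdvd g hg m hm'
        have h4 : IsUnit (algebraMap B (Localization.Away (algebraMap R B g0))
            (algebraMap R B g0)) := IsLocalization.Away.algebraMap_isUnit (algebraMap R B g0)
        have h5 := congrArg (fun x => algebraMap B (Localization.Away (algebraMap R B g0))
          (algebraMap R B x)) hc
        simp only [map_mul] at h5
        rw [h5] at h4
        exact isUnit_of_mul_isUnit_left h4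
      rw [← hNk, map_mul] at hu
      exact isUnit_of_mul_isUnit_left hu
  · -- the other case
    rw [Ideal.isPrime_iff] at hp
    push Not at hp
    obtain ⟨a, b, hab, ha, hb⟩ := hp htop
    refine split_P hP a ?_ ?_
    · let _ := algQ B A a
      have h1 := towerQ (B := B) (A := A) a
      have := h1.2
      exact ih _ (lt_sup ha) f _ (lc_quot hB a) _ (term_quot hA a)
    · let _ := algL B A a
      have h1 := towerL (B := B) (A := A) a
      have := h1.2
      have h2 := lc_loc hB a (Localization.Away (algebraMap R B a))
      refine ih _ (lt_sup hb) (f * a) _ (lc_up h2 b ?_) _ (term_loc hA a)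
      have h3 : algebraMap R (Localization.Away (algebraMap R B a)) (a * b) = 0 :=
        h2.zero _ hab
      rw [map_mul] at h3
      have h4 : IsUnit (algebraMap R (Localization.Away (algebraMap R B a)) a) := by
        rw [IsScalarTower.algebraMap_apply R B (Localization.Away (algebraMap R B a))]
        exact IsLocalization.Away.algebraMap_isUnit (algebraMap R B a)
      exact h4.mul_right_eq_zero.mp h3

/-- **Two-term equations with arbitrary coefficients.** -/
theorem two_P [IsNoetherianRing R] (hP : PosR sep P) {n : ℕ} (G : Set (MvPolynomial (Fin n) R))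
    (hG : ∀ g ∈ G, g.support.card ≤ 2) : P (aff R (MvPolynomial (Fin n) R ⧸ Ideal.span G)) := by
  refine term_base hP ⊥ 1 R (lc_base R) _ ⟨n, Ideal.Quotient.mkₐ R _, G,
    Ideal.Quotient.mkₐ_surjective R _, hG, Ideal.Quotient.mkₐ_ker R _⟩

end main

end Pool.Agent.U738.BN
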