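import Mathlib

/-!
# Presentations by polynomials with at most three terms and coefficients in a generating set

Let `S` be a set of elements of the field `k` which generates `k` as a field.  Every `k`-algebra of
finite type has a presentation by polynomials with at most three terms whose coefficients are `1` or
elements of `S`.
-/

set_option autoImplicit false

open MvPolynomial

namespace Pool.Agent.U738.BN

variable {R : Type} [CommRing R]

/-- The polynomial `g` has at most `t` terms, and its coefficients are `1` or elements of `S`. -/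
def Terms (S : Set R) (t : ℕ) {V : Type} (g : MvPolynomial V R) : Prop :=
  g.support.card ≤ t ∧ ∀ m ∈ g.support, coeff m g = 1 ∨ coeff m g ∈ S

lemma Terms.mono {S : Set R} {t t' : ℕ} (h : t ≤ t') {V : Type} {g : MvPolynomial V R}
    (hg : Terms S t g) : Terms S t' g := ⟨hg.1.trans h, hg.2⟩

lemma Terms.rename {S : Set R} {t : ℕ} {V W : Type} {f : V → W} (hf : Function.Injective f)
    {g : MvPolynomial V R} (hg : Terms S t g) : Terms S t (rename f g) := by
  classical
  refine ⟨?_, ?_⟩
  · rw [support_rename_of_injective hf]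
    exact Finset.card_image_le.trans hg.1
  · intro m hm
    rw [support_rename_of_injective hf, Finset.mem_image] at hm
    obtain ⟨a, ha, rfl⟩ := hm
    rw [coeff_rename_mapDomain f hf]
    exact hg.2 a ha

/-- Sums of different terms. -/
lemma terms_sum (S : Set R) {V ι : Type} (s : Finset ι) (a : ι → V →₀ ℕ) (c : ι → R)
    (ha : Set.InjOn a s) (hc : ∀ i ∈ s, c i = 1 ∨ c i ∈ S) :
    Terms S s.card (∑ i ∈ s, monomial (a i) (c i)) ∧
      ∀ m ∈ (∑ i ∈ s, monomial (a i) (c i)).support, ∃ i ∈ s, a i = m := by
  classical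
  have key : ∀ m ∈ (∑ i ∈ s, monomial (a i) (c i)).support, ∃ i ∈ s, a i = m := by
    intro m hm
    rw [mem_support_iff, coeff_sum] at hm
    obtain ⟨i, hi, h⟩ := Finset.exists_ne_zero_of_sum_ne_zero hm
    rw [coeff_monomial] at h
    refine ⟨i, hi, ?_⟩
    by_contra h2
    exact h (if_neg h2)
  refine ⟨⟨?_, ?_⟩, key⟩
  · have h1 : (∑ i ∈ s, monomial (a i) (c i)).support ⊆ s.image a := by
      intro m hm
      obtain ⟨i, hi, rfl⟩ := key m hm
      exact Finset.mem_image_of_mem _ hi
    exact (Finset.card_le_card h1).trans Finset.card_image_le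
  · intro m hm
    obtain ⟨i, hi, rfl⟩ := key m hm
    have h2 : coeff (a i) (∑ j ∈ s, monomial (a j) (c j)) = c i := by
      rw [coeff_sum, Finset.sum_eq_single i]
      · rw [coeff_monomial, if_pos rfl]
      · intro j hj hji
        rw [coeff_monomial, if_neg]
        intro h3
        exact hji (ha hj hi h3)
      · intro h3
        exact absurd hi h3
    rw [h2]
    exact hc i hi

lemma terms_one (S : Set R) {V : Type} (a : V →₀ ℕ) {c : R} (hc : c = 1 ∨ c ∈ S) :
    Terms S 3 (monomial a c) := by
  have h := (terms_sum S ({()} : Finset Unit) (fun _ => a) (fun _ => c)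
    (fun _ _ _ _ _ => Subsingleton.elim _ _) fun _ _ => hc).1
  rw [Finset.sum_singleton, Finset.card_singleton] at h
  exact h.mono (by norm_num)

lemma terms_two (S : Set R) {V : Type} {a b : V →₀ ℕ} (hab : a ≠ b) {c d : R} (hc : c = 1 ∨ c ∈ S)
    (hd : d = 1 ∨ d ∈ S) : Terms S 3 (monomial a c + monomial b d) := by
  have h := (terms_sum S (Finset.univ : Finset (Fin 2)) ![a, b] ![c, d] (by
    intro i _ j _ h
    fin_cases i <;> fin_cases j <;> simp_all [hab.symm]) (by
    intro i _
    fin_cases i
    · exact hc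
    · exact hd)).1
  rw [Fin.sum_univ_two, Finset.card_univ, Fintype.card_fin] at h
  exact h.mono (by norm_num)

lemma terms_three (S : Set R) {V : Type} {a b e : V →₀ ℕ} (hab : a ≠ b) (hae : a ≠ e) (hbe : b ≠ e)
    {c d f : R} (hc : c = 1 ∨ c ∈ S) (hd : d = 1 ∨ d ∈ S) (hf : f = 1 ∨ f ∈ S) :
    Terms S 3 (monomial a c + monomial b d + monomial e f) := by
  have h := (terms_sum S (Finset.univ : Finset (Fin 3)) ![a, b, e] ![c, d, f] (by
    intro i _ j _ h
    fin_cases i <;> fin_cases j <;> simp_all [hab.symm, hae.symm, hbe.symm]) (by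
    intro i _
    fin_cases i
    · exact hc
    · exact hd
    · exact hf)).1
  rw [Fin.sum_univ_three, Finset.card_univ, Fintype.card_fin] at h
  exact h

/-- A presentation by polynomials with at most three terms and coefficients in `S ∪ {1}`. -/
structure SQ (S : Set R) (A : Type) [CommRing A] [Algebra R A] where
  V : Type
  fin : Finite V
  φ : MvPolynomial V R →ₐ[R] A
  G : Set (MvPolynomial V R)
  finG : G.Finite
  surj : Function.Surjective φ
  ker : RingHom.ker φ = Ideal.span G
  short : ∀ g ∈ G, Terms S 3 g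

variable {S : Set R} {A : Type} [CommRing A] [Algebra R A]

/-- The values of the variables. -/
def SQ.marks (P : SQ S A) : Set A := Set.range fun v => P.φ (X v)

section

variable (P : SQ S A) (b : A) (ρ : MvPolynomial (Option P.V) R)

/-- the homomorphism with one more variable -/
noncomputable def eφ : MvPolynomial (Option P.V) R →ₐ[R] A :=
  aeval fun o => o.elim b fun v => P.φ (X v)

/-- the new set of relations -/
def eG : Set (MvPolynomial (Option P.V) R) := (rename some '' P.G) ∪ {ρ}

lemma eφ_rename (q : MvPolynomial P.V R) : eφ P b (rename some q) = P.φ q := by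
  have h : (eφ P b).comp (rename some) = P.φ := by
    apply MvPolynomial.algHom_ext
    intro v
    rw [AlgHom.comp_apply, rename_X, eφ, aeval_X]
    rfl
  exact DFunLike.congr_fun h q

lemma eφ_none : eφ P b (X none) = b := by
  rw [eφ, aeval_X]
  rfl

lemma eφ_some (v : P.V) : eφ P b (X (some v)) = P.φ (X v) := by
  rw [eφ, aeval_X]
  rfl

/-- the old relations -/
lemma eG_mem {r : MvPolynomial P.V R} (hr : P.φ r = 0) : rename some r ∈ Ideal.span (eG P ρ) := by
  have hr' : r ∈ Ideal.span P.G := by
    rw [← P.ker]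
    exact hr
  have h1 : Ideal.map (rename some : MvPolynomial P.V R →ₐ[R] _).toRingHom (Ideal.span P.G) ≤
      Ideal.span (eG P ρ) := by
    rw [Ideal.map_span]
    exact Ideal.span_mono fun x hx => Or.inl hx
  exact h1 (Ideal.mem_map_of_mem (rename some : MvPolynomial P.V R →ₐ[R] _).toRingHom hr')

lemma eG_rho : ρ ∈ Ideal.span (eG P ρ) := Ideal.subset_span (Or.inr rfl)

lemma eker (h0 : eφ P b ρ = 0) (q0 : MvPolynomial P.V R)
    (hc : X none - rename some q0 ∈ Ideal.span (eG P ρ)) :
    RingHom.ker (eφ P b) = Ideal.span (eG P ρ) := by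
  apply le_antisymm
  · intro q hq
    let J := Ideal.span (eG P ρ)
    let ψ : MvPolynomial (Option P.V) R →ₐ[R] MvPolynomial P.V R :=
      aeval fun o => o.elim q0 X
    have h2 : Ideal.Quotient.mkₐ R J = ((Ideal.Quotient.mkₐ R J).comp (rename some)).comp ψ := by
      apply MvPolynomial.algHom_ext
      intro o
      rw [AlgHom.comp_apply, AlgHom.comp_apply]
      have h3 : ψ (X o) = o.elim q0 X := aeval_X _ _
      rw [h3]
      match o with
      | none =>
        change Ideal.Quotient.mk J (X none) = Ideal.Quotient.mk J (rename some q0)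
        exact Ideal.Quotient.eq.mpr hc
      | some v =>
        change _ = Ideal.Quotient.mkₐ R J (rename some (X v))
        rw [rename_X]
    have h3 : q - rename some (ψ q) ∈ J := by
      rw [← Ideal.Quotient.eq_zero_iff_mem, map_sub, sub_eq_zero]
      exact DFunLike.congr_fun h2 q
    have hle : J ≤ RingHom.ker (eφ P b) := by
      rw [Ideal.span_le]
      rintro x (⟨y, hy, rfl⟩ | rfl)
      · change eφ P b (rename some y) = 0
        rw [eφ_rename]
        have : y ∈ RingHom.ker P.φ := by
          rw [P.ker]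
          exact Ideal.subset_span hy
        exact this
      · exact h0
    have h4 : eφ P b (q - rename some (ψ q)) = 0 := hle h3
    have h5 : P.φ (ψ q) = 0 := by
      rw [map_sub, eφ_rename] at h4
      have : eφ P b q = 0 := hq
      rw [this, zero_sub, neg_eq_zero] at h4
      exact h4
    have h7 := J.add_mem h3 (eG_mem P ρ h5)
    rwa [sub_add_cancel] at h7
  · rw [Ideal.span_le]
    rintro x (⟨y, hy, rfl⟩ | rfl)
    · change eφ P b (rename some y) = 0
      rw [eφ_rename]
      have : y ∈ RingHom.ker P.φ := by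
        rw [P.ker]
        exact Ideal.subset_span hy
      exact this
    · exact h0

/-- The presentation with one more variable with the value `b` and one more relation. -/
noncomputable def SQ.ext (hρ : Terms S 3 ρ) (h0 : eφ P b ρ = 0) (q0 : MvPolynomial P.V R)
    (hc : X none - rename some q0 ∈ Ideal.span (eG P ρ)) : SQ S A where
  V := Option P.V
  fin := by
    have := P.fin
    infer_instance
  φ := eφ P b
  G := eG P ρ
  finG := (P.finG.image _).union (Set.finite_singleton _)
  surj := fun a => by
    obtain ⟨q, hq⟩ := P.surj a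
    exact ⟨rename some q, by rw [eφ_rename, hq]⟩
  ker := eker P b ρ h0 q0 hc
  short := by
    rintro x (⟨y, hy, rfl⟩ | rfl)
    · exact (P.short y hy).rename (Option.some_injective _)
    · exact hρ

lemma exists_ext (hρ : Terms S 3 ρ) (h0 : eφ P b ρ = 0) (q0 : MvPolynomial P.V R)
    (hc : X none - rename some q0 ∈ Ideal.span (eG P ρ)) :
    ∃ P' : SQ S A, P.marks ⊆ P'.marks ∧ b ∈ P'.marks := by
  refine ⟨P.ext b ρ hρ h0 q0 hc, ?_, none, eφ_none P b⟩
  rintro _ ⟨v, rfl⟩
  exact ⟨some v, eφ_some P b v⟩

end

/-- The elements which can be made values of variables in all presentations extending `P0`. -/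
def ReachQ (P0 : SQ S A) : Set A :=
  {a | ∀ P : SQ S A, P0.marks ⊆ P.marks → ∃ P' : SQ S A, P.marks ⊆ P'.marks ∧ a ∈ P'.marks}

variable {P0 : SQ S A}

lemma reachQ_mark {a : A} (h : a ∈ P0.marks) : a ∈ ReachQ P0 := fun P hP => ⟨P, le_rfl, hP h⟩

lemma ne_of_none {V : Type} {a b : Option V →₀ ℕ} (ha : a none ≠ 0) (hb : b none = 0) : a ≠ b := by
  rintro rfl
  exact ha hb

lemma reachQ_mul (hm : -1 ∈ P0.marks) {a b : A} (ha : a ∈ ReachQ P0) (hb : b ∈ ReachQ P0) :
    a * b ∈ ReachQ P0 := by
  classical
  intro P hP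
  obtain ⟨P1, h1, i, hi⟩ := ha P hP
  obtain ⟨P2, h2, j, hj⟩ := hb P1 (hP.trans h1)
  obtain ⟨e, he⟩ := (hP.trans (h1.trans h2)) hm
  obtain ⟨i', hi'⟩ := h2 ⟨i, hi⟩
  change P2.φ (X j) = b at hj
  change P2.φ (X e) = -1 at he
  change P2.φ (X i') = a at hi'
  let ρ : MvPolynomial (Option P2.V) R :=
    X (some e) * X none + X (some i') * X (some j)
  have hρ : Terms S 3 ρ := by
    have h : ρ = monomial (Finsupp.single (some e) 1 + Finsupp.single none 1) 1 +
        monomial (Finsupp.single (some i') 1 + Finsupp.single (some j) 1) 1 := by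
      simp only [ρ, X, monomial_mul, one_mul]
    rw [h]
    exact terms_two S (ne_of_none (by simp) (by simp)) (Or.inl rfl) (Or.inl rfl)
  obtain ⟨P', h3, h4⟩ := exists_ext P2 (a * b) ρ hρ (by
    simp only [ρ, map_add, map_mul, eφ_none, eφ_some, hi', hj, he]
    ring) (X i' * X j) (by
    have h5 := eG_mem P2 ρ (r := X e + 1) (by rw [map_add, map_one, he]; ring)
    have h6 := Ideal.mul_mem_left _ (X none) h5
    have h7 := Ideal.sub_mem _ h6 (eG_rho P2 ρ)
    convert h7 using 1
    simp only [ρ, map_add, map_mul, rename_X, map_one]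
    ring)
  exact ⟨P', (h1.trans h2).trans h3, h4⟩

lemma reachQ_dup (hm : -1 ∈ P0.marks) (P : SQ S A) (hP : P0.marks ⊆ P.marks) (i j : P.V) :
    ∃ P' : SQ S A, P.marks ⊆ P'.marks ∧ ∃ i' j' : P'.V, i' ≠ j' ∧ P'.φ (X i') = P.φ (X i) ∧
      P'.φ (X j') = P.φ (X j) := by
  classical
  obtain ⟨e, he⟩ := hP hm
  change P.φ (X e) = -1 at he
  let ρ : MvPolynomial (Option P.V) R := X (some e) * X none + X (some j)
  have hρ : Terms S 3 ρ := by
    have h : ρ = monomial (Finsupp.single (some e) 1 + Finsupp.single none 1) 1 +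
        monomial (Finsupp.single (some j) 1) 1 := by
      simp only [ρ, X, monomial_mul, one_mul]
    rw [h]
    exact terms_two S (ne_of_none (by simp) (by simp)) (Or.inl rfl) (Or.inl rfl)
  have h0 : eφ P (P.φ (X j)) ρ = 0 := by
    simp only [ρ, map_add, map_mul, eφ_none, eφ_some, he]
    ring
  have hc : X none - rename some (X j) ∈ Ideal.span (eG P ρ) := by
    have h5 := eG_mem P ρ (r := X e + 1) (by rw [map_add, map_one, he]; ring)
    have h6 := Ideal.mul_mem_left _ (X none) h5
    have h7 := Ideal.sub_mem _ h6 (eG_rho P ρ)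
    convert h7 using 1
    simp only [ρ, map_add, rename_X, map_one]
    ring
  refine ⟨P.ext (P.φ (X j)) ρ hρ h0 (X j) hc, ?_, some i, none, fun h => Option.some_ne_none i h,
    eφ_some P _ i, eφ_none P _⟩
  rintro _ ⟨v, rfl⟩
  exact ⟨some v, eφ_some P _ v⟩

lemma reachQ_add (hm : -1 ∈ P0.marks) {a b : A} (ha : a ∈ ReachQ P0) (hb : b ∈ ReachQ P0) :
    a + b ∈ ReachQ P0 := by
  classical
  intro P hP
  obtain ⟨P1, h1, i, hi⟩ := ha P hP
  obtain ⟨P2, h2, j, hj⟩ := hb P1 (hP.trans h1)
  obtain ⟨i', hi'⟩ := h2 ⟨i, hi⟩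
  obtain ⟨P3, h3, i3, j3, hne, hi3, hj3⟩ := reachQ_dup hm P2 (hP.trans (h1.trans h2)) i' j
  obtain ⟨e, he⟩ := (hP.trans (h1.trans (h2.trans h3))) hm
  change P2.φ (X j) = b at hj
  change P3.φ (X e) = -1 at he
  change P2.φ (X i') = a at hi'
  rw [hj] at hj3
  rw [hi'] at hi3
  let ρ : MvPolynomial (Option P3.V) R :=
    X (some e) * X none + X (some i3) + X (some j3)
  have hρ : Terms S 3 ρ := by
    have h : ρ = monomial (Finsupp.single (some e) 1 + Finsupp.single none 1) 1 +
        monomial (Finsupp.single (some i3) 1) 1 + monomial (Finsupp.single (some j3) 1) 1 := by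
      simp only [ρ, X, monomial_mul, one_mul]
    rw [h]
    refine terms_three S (ne_of_none (by simp) (by simp)) (ne_of_none (by simp) (by simp)) ?_
      (Or.inl rfl) (Or.inl rfl) (Or.inl rfl)
    intro h2
    exact hne (Option.some_injective _ (Finsupp.single_left_injective one_ne_zero h2))
  obtain ⟨P', h4, h5⟩ := exists_ext P3 (a + b) ρ hρ (by
    simp only [ρ, map_add, map_mul, eφ_none, eφ_some, hi3, hj3, he]
    ring) (X i3 + X j3) (by
    have h5 := eG_mem P3 ρ (r := X e + 1) (by rw [map_add, map_one, he]; ring)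
    have h6 := Ideal.mul_mem_left _ (X none) h5
    have h7 := Ideal.sub_mem _ h6 (eG_rho P3 ρ)
    convert h7 using 1
    simp only [ρ, map_add, rename_X, map_one]
    ring)
  exact ⟨P', (h1.trans (h2.trans h3)).trans h4, h5⟩

lemma reachQ_inv (hm : -1 ∈ P0.marks) {a b : A} (ha : a ∈ ReachQ P0) (hab : a * b = 1) :
    b ∈ ReachQ P0 := by
  classical
  intro P hP
  obtain ⟨P1, h1, i, hi⟩ := ha P hP
  obtain ⟨e, he⟩ := (hP.trans h1) hm
  change P1.φ (X i) = a at hi
  change P1.φ (X e) = -1 at he
  obtain ⟨q0, hq0⟩ := P1.surj b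
  let ρ : MvPolynomial (Option P1.V) R := X (some i) * X none + X (some e)
  have hρ : Terms S 3 ρ := by
    have h : ρ = monomial (Finsupp.single (some i) 1 + Finsupp.single none 1) 1 +
        monomial (Finsupp.single (some e) 1) 1 := by
      simp only [ρ, X, monomial_mul, one_mul]
    rw [h]
    exact terms_two S (ne_of_none (by simp) (by simp)) (Or.inl rfl) (Or.inl rfl)
  obtain ⟨P', h4, h5⟩ := exists_ext P1 b ρ hρ (by
    simp only [ρ, map_add, map_mul, eφ_none, eφ_some, hi, he, hab]
    ring) q0 (by
    have h5 := eG_mem P1 ρ (r := X e + 1) (by rw [map_add, map_one, he]; ring)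
    have h5' := eG_mem P1 ρ (r := X i * q0 - 1) (by
      rw [map_sub, map_mul, map_one, hi, hq0, hab]; ring)
    have h6 := Ideal.mul_mem_left _ (rename some q0) h5
    have h6' := Ideal.mul_mem_left _ (X none) h5'
    have h6'' := Ideal.mul_mem_left _ (rename some q0) (eG_rho P1 ρ)
    have h7 := Ideal.sub_mem _ (Ideal.sub_mem _ h6'' h6) h6'
    convert h7 using 1
    simp only [ρ, map_add, map_sub, map_mul, rename_X, map_one]
    ring)
  exact ⟨P', h1.trans h4, h5⟩

lemma reachQ_const (hm : -1 ∈ P0.marks) {c : R} (hc : c ∈ S) : algebraMap R A c ∈ ReachQ P0 := by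
  classical
  intro P hP
  obtain ⟨e, he⟩ := hP hm
  change P.φ (X e) = -1 at he
  let ρ : MvPolynomial (Option P.V) R := X none + C c * X (some e)
  have hρ : Terms S 3 ρ := by
    have h : ρ = monomial (Finsupp.single none 1) 1 +
        monomial (Finsupp.single (some e) 1) c := by
      simp only [ρ, X, C_mul_monomial, mul_one]
    rw [h]
    exact terms_two S (ne_of_none (by simp) (by simp)) (Or.inl rfl) (Or.inr hc)
  exact exists_ext P (algebraMap R A c) ρ hρ (by
    simp only [ρ, map_add, map_mul, eφ_none, eφ_some, he]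
    rw [← algebraMap_eq, AlgHom.commutes]
    ring) (C c) (by
    have h5 := eG_mem P ρ (r := X e + 1) (by rw [map_add, map_one, he]; ring)
    have h6 := Ideal.mul_mem_left _ (C c) h5
    have h7 := Ideal.sub_mem _ (eG_rho P ρ) h6
    convert h7 using 1
    simp only [ρ, map_add, rename_X, map_one, rename_C]
    ring)

/-- The presentation of a polynomial ring: one more variable with the value `-1`. -/
noncomputable def baseQ (S : Set R) (n : ℕ) : SQ S (MvPolynomial (Fin n) R) where
  V := Option (Fin n)
  fin := inferInstance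
  φ := aeval fun o => o.elim (-1) X
  G := {X none + 1}
  finG := Set.finite_singleton _
  surj := fun q => ⟨rename some q, by
    rw [aeval_rename]
    have : ((fun o : Option (Fin n) => o.elim (-1 : MvPolynomial (Fin n) R) X) ∘ some) = X := rfl
    rw [this, aeval_X_left_apply]⟩
  ker := by
    apply le_antisymm
    · intro q hq
      let J : Ideal (MvPolynomial (Option (Fin n)) R) := Ideal.span {X none + 1}
      let ψ : MvPolynomial (Option (Fin n)) R →ₐ[R] MvPolynomial (Fin n) R :=
        aeval fun o => o.elim (-1) X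
      have h2 : Ideal.Quotient.mkₐ R J = ((Ideal.Quotient.mkₐ R J).comp (rename some)).comp ψ := by
        apply MvPolynomial.algHom_ext
        intro o
        rw [AlgHom.comp_apply, AlgHom.comp_apply]
        have h3 : ψ (X o) = o.elim (-1) X := aeval_X _ _
        rw [h3]
        match o with
        | none =>
          have h4 : Ideal.Quotient.mkₐ R J (X none + 1) = 0 :=
            Ideal.Quotient.eq_zero_iff_mem.mpr (Ideal.subset_span rfl)
          rw [map_add, map_one] at h4
          change _ = Ideal.Quotient.mkₐ R J (rename some (-1))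
          rw [map_neg, map_one, map_neg, map_one]
          linear_combination h4
        | some v =>
          change _ = Ideal.Quotient.mkₐ R J (rename some (X v))
          rw [rename_X]
      have h3 : q - rename some (ψ q) ∈ J := by
        rw [← Ideal.Quotient.eq_zero_iff_mem, map_sub, sub_eq_zero]
        exact DFunLike.congr_fun h2 q
      have h4 : ψ q = 0 := hq
      rw [h4, map_zero, sub_zero] at h3
      exact h3
    · rw [Ideal.span_le, Set.singleton_subset_iff]
      change aeval _ (X none + 1) = 0
      rw [map_add, map_one, aeval_X]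
      change (-1 : MvPolynomial (Fin n) R) + 1 = 0
      ring
  short := by
    classical
    rintro g rfl
    have h : (X none + 1 : MvPolynomial (Option (Fin n)) R) =
        monomial (Finsupp.single none 1) 1 + monomial 0 1 := rfl
    rw [h]
    exact terms_two S (ne_of_none (by simp) (by simp)) (Or.inl rfl) (Or.inl rfl)

lemma baseQ_neg (S : Set R) (n : ℕ) : -1 ∈ (baseQ S n).marks := ⟨none, by
  change aeval _ (X none) = _
  rw [aeval_X]
  rfl⟩

section field

variable {k : Type} [Field k] {T : Set k}

/-- The constants which can be reached form a subfield. -/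
lemma reachQ_field (hT : Subfield.closure T = ⊤) (n : ℕ) (c : k) :
    (C c : MvPolynomial (Fin n) k) ∈ ReachQ (baseQ T n) := by
  have hm := baseQ_neg T n
  have h1 : (1 : MvPolynomial (Fin n) k) ∈ ReachQ (baseQ T n) := by
    have := reachQ_mul hm (reachQ_mark hm) (reachQ_mark hm)
    rwa [neg_mul_neg, one_mul] at this
  have h0 : (0 : MvPolynomial (Fin n) k) ∈ ReachQ (baseQ T n) := by
    have := reachQ_add hm h1 (reachQ_mark hm)
    rwa [add_neg_cancel] at this
  have hc : c ∈ Subfield.closure T := by
    rw [hT]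
    trivial
  induction hc using Subfield.closure_induction with
  | mem x hx => exact reachQ_const hm hx
  | one => rwa [map_one]
  | add x y _ _ hx hy =>
    rw [map_add]
    exact reachQ_add hm hx hy
  | neg x _ hx =>
    have := reachQ_mul hm (reachQ_mark hm) hx
    rwa [neg_one_mul, ← map_neg] at this
  | inv x _ hx =>
    by_cases hx0 : x = 0
    · rw [hx0, inv_zero, map_zero]
      exact h0
    · exact reachQ_inv hm hx (by rw [← map_mul, mul_inv_cancel₀ hx0, map_one])
  | mul x y _ _ hx hy =>
    rw [map_mul]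
    exact reachQ_mul hm hx hy

lemma reachQ_all (hT : Subfield.closure T = ⊤) (n : ℕ) (f : MvPolynomial (Fin n) k) :
    f ∈ ReachQ (baseQ T n) := by
  have hm := baseQ_neg T n
  induction f using MvPolynomial.induction_on with
  | C r => exact reachQ_field hT n r
  | add p q hp hq => exact reachQ_add hm hp hq
  | mul_X p i hp =>
    refine reachQ_mul hm hp (reachQ_mark ⟨some i, ?_⟩)
    change aeval _ (X (some i)) = _
    rw [aeval_X]
    rfl

lemma reachQ_set (hT : Subfield.closure T = ⊤) (n : ℕ) (F : Finset (MvPolynomial (Fin n) k)) :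
    ∃ P : SQ T (MvPolynomial (Fin n) k), (baseQ T n).marks ⊆ P.marks ∧ ∀ f ∈ F, f ∈ P.marks := by
  classical
  induction F using Finset.induction_on with
  | empty => exact ⟨baseQ T n, le_rfl, by simp⟩
  | insert f F _ ih =>
    obtain ⟨P, h1, h2⟩ := ih
    obtain ⟨P', h3, h4⟩ := reachQ_all hT n f P h1
    refine ⟨P', h1.trans h3, fun g hg => ?_⟩
    rcases Finset.mem_insert.mp hg with rfl | hg
    · exact h4
    · exact h3 (h2 g hg)

/-- Every algebra of finite type has a presentation by polynomials with at most three terms and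
coefficients in `T ∪ {1}`. -/
def PresentsQ {k : Type} [Field k] (T : Set k) : Prop :=
  ∀ (A : Type) [CommRing A] [Algebra k A] [Algebra.FiniteType k A],
    ∃ (n : ℕ) (φ : MvPolynomial (Fin n) k →ₐ[k] A) (G : Finset (MvPolynomial (Fin n) k)),
      Function.Surjective φ ∧ RingHom.ker φ = Ideal.span (G : Set (MvPolynomial (Fin n) k)) ∧
      ∀ g ∈ G, Terms T 3 g

lemma SQ.toFin {A : Type} [CommRing A] [Algebra k A] (P : SQ T A) :
    ∃ (n : ℕ) (φ : MvPolynomial (Fin n) k →ₐ[k] A)
    (G : Finset (MvPolynomial (Fin n) k)), Function.Surjective φ ∧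
    RingHom.ker φ = Ideal.span (G : Set (MvPolynomial (Fin n) k)) ∧ ∀ g ∈ G, Terms T 3 g := by
  classical
  have := P.fin
  have := Fintype.ofFinite P.V
  let e : P.V ≃ Fin (Fintype.card P.V) := Fintype.equivFin P.V
  let E : MvPolynomial P.V k ≃ₐ[k] MvPolynomial (Fin (Fintype.card P.V)) k := renameEquiv k e
  refine ⟨Fintype.card P.V, P.φ.comp (E.symm : _ →ₐ[k] _), P.finG.toFinset.image E, ?_, ?_, ?_⟩
  · intro a
    obtain ⟨p, rfl⟩ := P.surj a
    refine ⟨E p, ?_⟩
    change P.φ (E.symm (E p)) = P.φ p
    rw [E.symm_apply_apply]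
  · let E1 : MvPolynomial P.V k →+* MvPolynomial (Fin (Fintype.card P.V)) k :=
      (rename e : MvPolynomial P.V k →ₐ[k] _).toRingHom
    have h1 : (P.finG.toFinset.image E : Set (MvPolynomial (Fin (Fintype.card P.V)) k)) =
        E1 '' P.G := by
      rw [Finset.coe_image, Set.Finite.coe_toFinset]
      rfl
    rw [h1, ← Ideal.map_span, ← P.ker]
    ext p
    constructor
    · intro hp
      have h2 : E.symm p ∈ RingHom.ker P.φ := hp
      have h3 := Ideal.mem_map_of_mem E1 h2
      have h4 : E1 (E.symm p) = p := E.apply_symm_apply p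
      rwa [h4] at h3
    · intro hp
      obtain ⟨q, hq, rfl⟩ := (Ideal.mem_map_iff_of_surjective E1
        (fun p => ⟨E.symm p, E.apply_symm_apply p⟩)).mp hp
      change P.φ (E.symm (E q)) = 0
      rw [E.symm_apply_apply]
      exact hq
  · intro g hg
    obtain ⟨g, hg', rfl⟩ := Finset.mem_image.mp hg
    exact (P.short g (P.finG.mem_toFinset.mp hg')).rename e.injective

/-- **Presentations with three terms**. -/
theorem presentsQ (hT : Subfield.closure T = ⊤) : PresentsQ T := by
  classical
  intro A _ _ _
  obtain ⟨n, π, hπ⟩ := Algebra.FiniteType.iff_quotient_mvPolynomial''.mp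
    (inferInstance : Algebra.FiniteType k A)
  obtain ⟨F, hF⟩ := (isNoetherianRing_iff_ideal_fg _).mp
    (inferInstance : IsNoetherianRing (MvPolynomial (Fin n) k)) (RingHom.ker π)
  obtain ⟨P, hP0, hP⟩ := reachQ_set hT n F
  have hne : Nonempty P.V := by
    obtain ⟨v, _⟩ := hP0 (baseQ_neg T n)
    exact ⟨v⟩
  choose! v hv using hP
  let Q : SQ T A :=
    { V := P.V
      fin := P.fin
      φ := π.comp P.φ
      G := P.G ∪ (fun f => X (v f)) '' (F : Set (MvPolynomial (Fin n) k))
      finG := P.finG.union (F.finite_toSet.image _)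
      surj := fun a => by
        obtain ⟨b, rfl⟩ := hπ a
        obtain ⟨c, rfl⟩ := P.surj b
        exact ⟨c, rfl⟩
      ker := by
        have h1 : RingHom.ker (π.comp P.φ) = Ideal.comap (P.φ : MvPolynomial P.V k →+* _)
            (RingHom.ker π) := rfl
        have h2 : RingHom.ker π = Ideal.map (P.φ : MvPolynomial P.V k →+* _)
            (Ideal.span ((fun f => X (v f)) '' (F : Set (MvPolynomial (Fin n) k)))) := by
          rw [Ideal.map_span, ← hF, Set.image_image]
          congr 1
          ext x
          constructor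
          · intro hx
            exact ⟨x, hx, hv x hx⟩
          · rintro ⟨y, hy, rfl⟩
            have : (P.φ : MvPolynomial P.V k →+* _) (X (v y)) = y := hv y hy
            change (P.φ : MvPolynomial P.V k →+* MvPolynomial (Fin n) k) (X (v y)) ∈ _
            rw [this]
            exact hy
        have h3 : RingHom.ker (P.φ : MvPolynomial P.V k →+* MvPolynomial (Fin n) k) =
            Ideal.span P.G := P.ker
        rw [h1, h2, Ideal.comap_map_of_surjective'
          (P.φ : MvPolynomial P.V k →+* MvPolynomial (Fin n) k) P.surj, Ideal.span_union, sup_comm,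
          h3]
      short := by
        rintro g (hg | ⟨f, _, rfl⟩)
        · exact P.short g hg
        · exact terms_one T (Finsupp.single (v f) 1) (Or.inl rfl) }
  exact Q.toFin

end field

end Pool.Agent.U738.BN
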