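import Pool.Agent.U738.BN.Fam

/-!
# Maps between families of modules with right exact localization sequences

`c j X : A j X → B j X` is a family of linear maps, compatible with right exact localization sequences.
The schemes for which all maps are surjective have the closure properties of the dichotomy of the number
of terms.
-/

set_option autoImplicit false

namespace Pool.Agent.U738.BN

open CategoryTheory AlgebraicGeometry MvPolynomial Pool.Agent.Y116.UV Pool.Agent.Q282.UK
  Pool.Agent.Z125.UN

universe w

/-- Two families of modules and a family of linear maps. -/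
structure CycData (R : Type) [CommRing R] (E : Type) [CommRing E] where
  A : ℕ → Sch R → ModuleCat.{w} E
  B : ℕ → Sch R → ModuleCat.{w} E
  c : ∀ (j : ℕ) (X : Sch R), A j X →ₗ[E] B j X

variable {R : Type} [CommRing R] {E : Type} [CommRing E]

/-- The maps `c j X` and `c j' Y` are isomorphic. -/
def SameMap (D : CycData.{w} R E) (j : ℕ) (X : Sch R) (j' : ℕ) (Y : Sch R) : Prop :=
  ∃ (e : D.A j X ≃ₗ[E] D.A j' Y) (e' : D.B j X ≃ₗ[E] D.B j' Y), ∀ x, D.c j' Y (e x) = e' (D.c j X x)

/-- The linear maps `a` and `b` are compatible with the maps `c j X` and `c j Y`. -/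
def Compatible (D : CycData.{w} R E) {j : ℕ} {X Y : Sch R} (a : D.A j X →ₗ[E] D.A j Y)
    (b : D.B j X →ₗ[E] D.B j Y) : Prop := ∀ x, D.c j Y (a x) = b (D.c j X x)

/-- The sequence `L → M → N → 0` is exact. -/
def IsRightExact {L M N : ModuleCat.{w} E} (f : L →ₗ[E] M) (g : M →ₗ[E] N) : Prop :=
  Function.Exact f g ∧ Function.Surjective g

/-- A right exact localization sequence: compatible exact sequences `A j Z → A j X → A j U → 0` and
`B j Z → B j X → B j U → 0`. -/
def RightExact (D : CycData.{w} R E) (j : ℕ) (Z X U : Sch R) : Prop :=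
  ∃ (a : D.A j Z →ₗ[E] D.A j X) (a' : D.A j X →ₗ[E] D.A j U) (b : D.B j Z →ₗ[E] D.B j X)
    (b' : D.B j X →ₗ[E] D.B j U), Compatible D a b ∧ Compatible D a' b' ∧ IsRightExact a a' ∧
    IsRightExact b b'

/-- Invariance under isomorphisms of schemes. -/
def IsoInvariant (D : CycData.{w} R E) : Prop :=
  ∀ {X Y : Sch R}, FT True X → Nonempty (X ≅ Y) → ∀ j, SameMap D j X j Y

/-- Right exact localization sequences for a closed subscheme `Z` of `X` and its complement `U`. -/
def HasLocalization (D : CycData.{w} R E) : Prop :=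
  ∀ {Z X U : Sch R} (i : Z ⟶ X) (i' : U ⟶ X), FT True X → IsTriple i i' → ∀ j, RightExact D j Z X U

/-- The formula for the product of an affine scheme with `𝔾_m`. -/
def TorusFormula (D : CycData.{w} R E) : Prop :=
  ∀ (B : Type) [CommRing B] [Algebra R B] [Algebra.FiniteType R B],
    (∀ j, SameMap D j (aff R B) (j + 1) (aff R (LaurentPolynomial B))) ∧
    Subsingleton (D.B 0 (aff R (LaurentPolynomial B)))

/-- The maps are surjective for schemes of dimension at most one. -/
def CurveSurjective (D : CycData.{w} R E) : Prop :=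
  ∀ X : Sch R, FT True X → topologicalKrullDim X.left ≤ 1 → ∀ j, Function.Surjective (D.c j X)

/-- Families of cycle maps: invariance under isomorphisms; right exact localization sequences; the
formula for the product with `𝔾_m`; surjectivity for schemes of dimension at most one. -/
structure IsCyc (D : CycData.{w} R E) : Prop where
  iso : IsoInvariant D
  loc : HasLocalization D
  torus : TorusFormula D
  curves : CurveSurjective D

/-- All maps `c j X` are surjective. -/
def SurjAll (D : CycData.{w} R E) (X : Sch R) : Prop := ∀ j, Function.Surjective (D.c j X)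

variable {D : CycData.{w} R E}

lemma SameMap.surj {j j' : ℕ} {X Y : Sch R} (h : SameMap D j X j' Y) :
    Function.Surjective (D.c j X) ↔ Function.Surjective (D.c j' Y) := by
  obtain ⟨e, e', h⟩ := h
  constructor
  · intro hs y
    obtain ⟨x, hx⟩ := hs (e'.symm y)
    exact ⟨e x, by rw [h, hx, e'.apply_symm_apply]⟩
  · intro hs y
    obtain ⟨x, hx⟩ := hs (e' y)
    refine ⟨e.symm x, e'.injective ?_⟩
    rw [← h, e.apply_symm_apply, hx]

lemma RightExact.mid {j : ℕ} {Z X U : Sch R} (h : RightExact D j Z X U)
    (hZ : Function.Surjective (D.c j Z)) (hU : Function.Surjective (D.c j U)) :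
    Function.Surjective (D.c j X) := by
  obtain ⟨a, a', b, b', h1, h2, ⟨-, h4⟩, ⟨h5, -⟩⟩ := h
  intro y
  obtain ⟨u, hu⟩ := hU (b' y)
  obtain ⟨x, hx⟩ := h4 u
  have h3 : b' (y - D.c j X x) = 0 := by
    rw [map_sub, ← h2 x, hx, hu, sub_self]
  obtain ⟨z', hz'⟩ := (h5 _).mp h3
  obtain ⟨z, hz⟩ := hZ z'
  refine ⟨x + a z, ?_⟩
  rw [map_add, h1 z, hz, hz']
  abel

lemma RightExact.right {j : ℕ} {Z X U : Sch R} (h : RightExact D j Z X U)
    (hX : Function.Surjective (D.c j X)) : Function.Surjective (D.c j U) := by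
  obtain ⟨a, a', b, b', -, h2, -, ⟨-, h6⟩⟩ := h
  intro y
  obtain ⟨y', rfl⟩ := h6 y
  obtain ⟨x, rfl⟩ := hX y'
  exact ⟨a' x, h2 x⟩

theorem clo_cyc (hD : IsCyc D) : Clo True (SurjAll D) where
  iso hX e h j := (hD.iso hX e j).surj.mp (h j)
  total i i' hX ht hZ hU j := (hD.loc i i' hX ht j).mid (hZ j) (hU j)
  opened i i' hX ht _ hX' j := (hD.loc i i' hX ht j).right (hX' j)
  torus B _ _ _ h j := ((hD.torus B).1 j).surj.mpr (h (j + 1))

theorem posD_cyc {k : Type} [Field k] {D : CycData.{w} k E} (hD : IsCyc D) :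
    PosD True (SurjAll D) 1 where
  iso := (clo_cyc hD).iso
  total := (clo_cyc hD).total
  times B _ _ _ h j := by
    cases j with
    | zero =>
      have := (hD.torus B).2
      exact fun y => ⟨0, Subsingleton.elim _ _⟩
    | succ j => exact ((hD.torus B).1 j).surj.mp (h j)
  dim B _ _ _ hB := hD.curves _ (ft_aff True) (by rw [topDim_aff]; exact hB)

end Pool.Agent.U738.BN
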