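import Pool.Agent.U738.BN.Base

/-!
# Dimensions of finite algebras over locally closed subschemes
-/

set_option autoImplicit false

namespace Pool.Agent.U738.BN

open CategoryTheory AlgebraicGeometry MvPolynomial Pool.Agent.Y116.UV Pool.Agent.Z125.UN

variable {R : Type} [CommRing R] {I : Ideal R} {f : R} {B : Type} [CommRing B] [Algebra R B]

/-- A finite algebra over `(R / I)[1 / f]` has at most the dimension of `R`. -/
lemma dim_lc (hB : LC I f B) (A : Type) [CommRing A] [Algebra R A] [Algebra B A]
    [IsScalarTower R B A] [Module.Finite B A] : ringKrullDim A ≤ ringKrullDim R := by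
  refine Order.krullDim_le_of_strictMono (PrimeSpectrum.comap (algebraMap R A)) ?_
  intro p q hpq
  have h1 : (p.asIdeal).comap (algebraMap B A) < (q.asIdeal).comap (algebraMap B A) :=
    Ideal.IsIntegral.comap_lt_comap hpq
  obtain ⟨hle, b, hbq, hbp⟩ := SetLike.lt_iff_le_and_exists.mp h1
  obtain ⟨c, k, hc⟩ := hB.num b
  have hcA : algebraMap R A c = algebraMap B A b * algebraMap B A (algebraMap R B f) ^ k := by
    rw [IsScalarTower.algebraMap_apply R B A, ← hc, map_mul, map_pow]
  refine lt_of_le_of_ne (fun r hr => hpq.le hr) fun he => hbp ?_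
  have h2 : c ∈ (PrimeSpectrum.comap (algebraMap R A) q).asIdeal := by
    change algebraMap R A c ∈ q.asIdeal
    rw [hcA]
    exact Ideal.mul_mem_right _ _ hbq
  rw [← he] at h2
  have h3 : algebraMap R A c ∈ p.asIdeal := h2
  rw [hcA] at h3
  rcases p.isPrime.mem_or_mem h3 with h4 | h4
  · exact h4
  · exfalso
    have h5 : IsUnit (algebraMap B A (algebraMap R B f) ^ k) := (hB.unit.map _).pow k
    exact p.isPrime.ne_top (Ideal.eq_top_of_isUnit_mem _ h4 h5)

/-- Properties which are closed under affine bundles. -/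
theorem posR_of_bnd {sep : Prop} {P : Sch R → Prop} (hP : Bnd sep P)
    (hq : ∀ (I : Ideal R) (f : R) (B : Type) [CommRing B] [Algebra R B] (A : Type) [CommRing A]
      [Algebra R A] [Algebra B A] [IsScalarTower R B A] [Module.Finite B A], LC I f B →
      P (aff R A)) : PosR sep P := by
  have h := pos_of_bnd hP fun A _ _ _ => hq ⊥ 1 R A (lc_base R)
  exact ⟨h.iso, h.total, h.times, hq⟩

end Pool.Agent.U738.BN
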