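import Pool.Agent.U738.BN.Dich

/-!
# Schemes over an algebra as schemes over the base ring
-/

set_option autoImplicit false

namespace Pool.Agent.U738.BN

open CategoryTheory AlgebraicGeometry MvPolynomial Pool.Agent.Y116.UV

variable (R : Type) [CommRing R] {B : Type} [CommRing B] [Algebra R B]

/-- A scheme over the `R`-algebra `B`, regarded as a scheme over `R`. -/
noncomputable def down (X : Sch B) : Sch R :=
  Over.mk (X.hom ≫ Spec.map (CommRingCat.ofHom (algebraMap R B)))

lemma down_left (X : Sch B) : (down R X).left = X.left := rfl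

/-- morphisms over `B` are morphisms over `R` -/
noncomputable def downMap {X Y : Sch B} (f : X ⟶ Y) : down R X ⟶ down R Y :=
  Over.homMk f.left (by
    change f.left ≫ Y.hom ≫ _ = X.hom ≫ _
    rw [← Category.assoc, Over.w])

/-- isomorphisms over `B` are isomorphisms over `R` -/
noncomputable def downIso {X Y : Sch B} (e : X ≅ Y) : down R X ≅ down R Y :=
  Over.isoMk ((Over.forget _).mapIso e) (by
    change e.hom.left ≫ Y.hom ≫ _ = X.hom ≫ _
    rw [← Category.assoc, Over.w])

lemma triple_down {Z X U : Sch B} {i : Z ⟶ X} {j : U ⟶ X} (h : IsTriple i j) :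
    IsTriple (downMap R i) (downMap R j) := ⟨h.closed, h.opened, h.compl⟩

lemma ft_down [hB : Algebra.FiniteType R B] {sep : Prop} {X : Sch B} (h : FT sep X) :
    FT sep (down R X) := by
  have h1 := h.locallyOfFiniteType
  have h2 := h.quasiCompact
  have h3 : LocallyOfFiniteType (Spec.map (CommRingCat.ofHom (algebraMap R B))) := by
    rw [HasRingHomProperty.Spec_iff (P := @LocallyOfFiniteType)]
    exact RingHom.finiteType_algebraMap.mpr hB
  have h4 : QuasiCompact (Spec.map (CommRingCat.ofHom (algebraMap R B))) := inferInstance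
  refine ⟨?_, ?_, fun hs => ?_⟩
  · exact MorphismProperty.comp_mem _ X.hom _ h1 h3
  · exact MorphismProperty.comp_mem _ X.hom _ h2 h4
  · have h5 := h.separated hs
    have h6 : IsSeparated (Spec.map (CommRingCat.ofHom (algebraMap R B))) := inferInstance
    exact MorphismProperty.comp_mem _ X.hom _ h5 h6

/-- the spectrum of an algebra over `B` -/
noncomputable def downAff (A : Type) [CommRing A] [Algebra B A] [Algebra R A]
    [IsScalarTower R B A] : down R (aff B A) ≅ aff R A :=
  Over.isoMk (Iso.refl _) (by
    change 𝟙 _ ≫ Spec.map (CommRingCat.ofHom (algebraMap R A)) =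
      Spec.map (CommRingCat.ofHom (algebraMap B A)) ≫
        Spec.map (CommRingCat.ofHom (algebraMap R B))
    rw [Category.id_comp, ← Spec.map_comp, ← CommRingCat.ofHom_comp,
      ← IsScalarTower.algebraMap_eq])

/-- `P` for schemes over `B` regarded as schemes over `R` -/
def dn (P : Sch R → Prop) : Sch B → Prop := fun X => P (down R X)

variable {R}

/-- The ring `B` is the localization `(R / I)[1 / f]`. -/
structure LC (I : Ideal R) (f : R) (B : Type) [CommRing B] [Algebra R B] : Prop where
  zero : ∀ r ∈ I, algebraMap R B r = 0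
  unit : IsUnit (algebraMap R B f)
  num : ∀ b : B, ∃ (r : R) (k : ℕ), b * algebraMap R B f ^ k = algebraMap R B r
  ker : ∀ r : R, algebraMap R B r = 0 → ∃ k : ℕ, f ^ k * r ∈ I

/-- The property `P` of schemes over `R` is closed under isomorphisms and closed-open decompositions, it
passes from `X` to `X × 𝔾_m` for affine `X`, and it is true for the schemes which are finite over a
locally closed subscheme `Spec (R / I)[1 / f]` of `Spec R`. -/
structure PosR (sep : Prop) (P : Sch R → Prop) : Prop where
  iso : ∀ {X Y : Sch R}, FT sep X → Nonempty (X ≅ Y) → P X → P Y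
  total : ∀ {Z X U : Sch R} (i : Z ⟶ X) (j : U ⟶ X), FT sep X → IsTriple i j → P Z → P U → P X
  times : ∀ (A : Type) [CommRing A] [Algebra R A] [Algebra.FiniteType R A],
    P (aff R A) → P (aff R (LaurentPolynomial A))
  quasi : ∀ (I : Ideal R) (f : R) (B : Type) [CommRing B] [Algebra R B] (A : Type) [CommRing A]
    [Algebra R A] [Algebra B A] [IsScalarTower R B A] [Module.Finite B A], LC I f B → P (aff R A)

lemma LC.finiteType {I : Ideal R} {f : R} {B : Type} [CommRing B] [Algebra R B] (h : LC I f B) :
    Algebra.FiniteType R B := by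
  obtain ⟨g, hg⟩ := h.unit.exists_right_inv
  refine ⟨⟨{g}, ?_⟩⟩
  rw [eq_top_iff]
  rintro b -
  obtain ⟨r, k, hk⟩ := h.num b
  have h1 : b = algebraMap R B r * g ^ k := by
    rw [← hk, mul_assoc, ← mul_pow, hg, one_pow, mul_one]
  rw [h1]
  refine Subalgebra.mul_mem _ (Subalgebra.algebraMap_mem _ _) (Subalgebra.pow_mem _ ?_ k)
  exact Algebra.subset_adjoin (by simp)

/-- restriction to a locally closed subscheme -/
theorem pos_dn {sep : Prop} {P : Sch R → Prop} (hP : PosR sep P) {I : Ideal R} {f : R}
    (hB : LC I f B) : Pos sep (dn R P : Sch B → Prop) := by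
  have hft := hB.finiteType
  refine ⟨?_, ?_, ?_, ?_⟩
  · rintro X Y hX ⟨e⟩ h
    exact hP.iso (ft_down R hX) ⟨downIso R e⟩ h
  · intro Z X U i j hX ht hZ hU
    exact hP.total (downMap R i) (downMap R j) (ft_down R hX) (triple_down R ht) hZ hU
  · intro A _ _ _ h
    let _ : Algebra R A := Algebra.compHom A (algebraMap R B)
    have : IsScalarTower R B A := IsScalarTower.of_algebraMap_eq fun _ => rfl
    have : Algebra.FiniteType R A := Algebra.FiniteType.trans (S := B) inferInstance inferInstance
    have h1 : P (aff R A) := hP.iso (ft_down R (ft_aff sep)) ⟨downAff R A⟩ h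
    have h2 := hP.times A h1
    have h3 : Algebra.FiniteType R (LaurentPolynomial A) := ft_laurent A
    exact hP.iso (ft_aff sep) ⟨(downAff R (LaurentPolynomial A)).symm⟩ h2
  · intro A _ _ _
    let _ : Algebra R A := Algebra.compHom A (algebraMap R B)
    have : IsScalarTower R B A := IsScalarTower.of_algebraMap_eq fun _ => rfl
    have : Algebra.FiniteType R A := Algebra.FiniteType.trans (S := B) inferInstance inferInstance
    exact hP.iso (ft_aff sep) ⟨(downAff R A).symm⟩ (hP.quasi I f B A hB)

end Pool.Agent.U738.BN
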