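import Pool.Agent.U738.BN.Grp
import Pool.Agent.Z125.UN.Pc

/-!
# Binomial schemes

A property of schemes which is closed under closed-open decompositions, which passes from `X` to
`X × 𝔾_m`, and which is true for the finite schemes over `R`, is true for all closed subschemes of
affine spaces given by equations with at most two terms.
-/

set_option autoImplicit false

namespace Pool.Agent.U738.BN

open CategoryTheory AlgebraicGeometry MvPolynomial Pool.Agent.Y116.UV Pool.Agent.Z125.UN

variable {R : Type} [CommRing R] {σ : Type}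

/-- A term: a monomial whose coefficient is a unit. -/
def IsTerm (f : MvPolynomial σ R) : Prop := ∃ (a : σ →₀ ℕ) (u : Rˣ), f = monomial a (u : R)

/-- A sum of at most two terms. -/
def IsBin (g : MvPolynomial σ R) : Prop :=
  g = 0 ∨ IsTerm g ∨ ∃ f₁ f₂ : MvPolynomial σ R, IsTerm f₁ ∧ IsTerm f₂ ∧ g = f₁ + f₂

lemma isTerm_X (s : σ) : IsTerm (X s : MvPolynomial σ R) := ⟨Finsupp.single s 1, 1, rfl⟩

lemma isTerm_one : IsTerm (1 : MvPolynomial σ R) := ⟨0, 1, rfl⟩

lemma IsTerm.mul {f g : MvPolynomial σ R} (hf : IsTerm f) (hg : IsTerm g) : IsTerm (f * g) := by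
  obtain ⟨a, u, rfl⟩ := hf
  obtain ⟨b, v, rfl⟩ := hg
  exact ⟨a + b, u * v, by rw [monomial_mul, Units.val_mul]⟩

section

variable {A : Type} [CommRing A] [Algebra R A] (x : σ → A)

open Classical in
/-- the unit given by a value -/
noncomputable def us (s : σ) : Aˣ := if h : IsUnit (x s) then h.unit else 1

lemma us_val {s : σ} (h : IsUnit (x s)) : (us x s : A) = x s := by
  rw [us, dif_pos h]
  rfl

/-- the units of the ring of coefficients -/
noncomputable def et (R A : Type) [CommRing R] [CommRing A] [Algebra R A] : Rˣ →* Aˣ :=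
  Units.map (algebraMap R A : R →* A)

/-- The group of units generated by the values and by the units of `R`. -/
def grp (R : Type) [CommRing R] [Algebra R A] : Subgroup Aˣ :=
  Subgroup.closure (Set.range (et R A) ∪ Set.range (us x))

lemma et_mem (c : Rˣ) : et R A c ∈ grp x R := Subgroup.subset_closure (Or.inl ⟨c, rfl⟩)

lemma us_mem (s : σ) : us x s ∈ grp x R := Subgroup.subset_closure (Or.inr ⟨s, rfl⟩)

/-- The homomorphism from the units of `R` to the group. -/
noncomputable def th : Rˣ →* grp x R := (et R A).codRestrict (grp x R) (et_mem x)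

lemma grp_induction {N : Subgroup (grp x R)} (h1 : ∀ c, th x c ∈ N)
    (h2 : ∀ s, (⟨us x s, us_mem x s⟩ : grp x R) ∈ N) (h : grp x R) : h ∈ N := by
  have hle : grp x R ≤ N.map (grp x R).subtype := by
    refine (Subgroup.closure_le _).mpr ?_
    rintro _ (⟨c, rfl⟩ | ⟨s, rfl⟩)
    · exact ⟨th x c, h1 c, rfl⟩
    · exact ⟨⟨us x s, us_mem x s⟩, h2 s, rfl⟩
  obtain ⟨y, hy, hyh⟩ := hle h.2
  have : y = h := Subtype.ext hyh
  rwa [this] at hy

lemma grp_fg [Finite σ] : Group.FG (grp x R ⧸ (th x : Rˣ →* grp x R).range) := by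
  rw [Group.fg_iff]
  refine ⟨Set.range fun s => QuotientGroup.mk (⟨us x s, us_mem x s⟩ : grp x R), ?_,
    Set.finite_range _⟩
  rw [eq_top_iff]
  rintro y -
  obtain ⟨h, rfl⟩ := QuotientGroup.mk_surjective y
  let S := Subgroup.closure (Set.range fun s =>
    (QuotientGroup.mk (⟨us x s, us_mem x s⟩ : grp x R) : grp x R ⧸ (th x : Rˣ →* grp x R).range))
  have := grp_induction x (N := S.comap (QuotientGroup.mk' _)) (fun c => by
    rw [Subgroup.mem_comap]
    have h1 : QuotientGroup.mk' (th x : Rˣ →* grp x R).range (th x c) = 1 :=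
      (QuotientGroup.eq_one_iff _).mpr ⟨c, rfl⟩
    rw [h1]
    exact S.one_mem) (fun s => Subgroup.subset_closure ⟨s, rfl⟩) h
  exact this

/-- from the twisted group algebra -/
noncomputable def al : Tw (th x : Rˣ →* grp x R) →ₐ[R] A :=
  twLift (th x) ((Units.coeHom A).comp (grp x R).subtype) fun _ => rfl

lemma al_cls (h : grp x R) : al x (cls (th x) h) = ((h : Aˣ) : A) := twLift_cls _ _ _ _

open Classical in
/-- the values in the twisted group algebra -/
noncomputable def vals (s : σ) : Tw (th x : Rˣ →* grp x R) :=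
  if IsUnit (x s) then cls (th x) ⟨us x s, us_mem x s⟩ else 0

/-- corresponding elements -/
def cor : Submonoid (A × Tw (th x : Rˣ →* grp x R)) where
  carrier := {z | z = 0 ∨ ∃ h : grp x R, z = (((h : Aˣ) : A), cls (th x) h)}
  one_mem' := Or.inr ⟨1, by rw [map_one]; rfl⟩
  mul_mem' := by
    rintro a b (rfl | ⟨h, rfl⟩) (rfl | ⟨h', rfl⟩)
    · exact Or.inl (Prod.ext (zero_mul (0 : A)) (zero_mul (0 : Tw (th x : Rˣ →* grp x R))))
    · exact Or.inl (Prod.ext (zero_mul ((h' : Aˣ) : A)) (zero_mul (cls (th x : Rˣ →* grp x R) h')))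
    · exact Or.inl (Prod.ext (mul_zero ((h : Aˣ) : A)) (mul_zero (cls (th x : Rˣ →* grp x R) h)))
    · exact Or.inr ⟨h * h', by rw [map_mul]; rfl⟩

lemma mem_cor {z : A × Tw (th x : Rˣ →* grp x R)} :
    z ∈ cor x ↔ z = 0 ∨ ∃ h : grp x R, z = (((h : Aˣ) : A), cls (th x) h) := Iff.rfl

lemma cor_pow {z : A × Tw (th x : Rˣ →* grp x R)} (hz : z ∈ cor (R := R) x) (n : ℕ) :
    z ^ n ∈ cor (R := R) x := by
  induction n with
  | zero =>
    have h : z ^ 0 = 1 := Prod.ext (pow_zero z.1) (pow_zero z.2)
    rw [h]
    exact (cor (R := R) x).one_mem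
  | succ n ih =>
    have h : z ^ (n + 1) = z ^ n * z := Prod.ext (pow_succ z.1 n) (pow_succ z.2 n)
    rw [h]
    exact (cor (R := R) x).mul_mem ih hz

variable [Nontrivial A] (hx : ∀ s, x s = 0 ∨ IsUnit (x s))

include hx

omit [Nontrivial A] in
lemma vals_cor (s : σ) : (x s, vals (R := R) x s) ∈ cor (R := R) x := by
  rw [mem_cor, vals]
  split_ifs with h
  · exact Or.inr ⟨⟨us x s, us_mem x s⟩, by rw [us_val x h]⟩
  · rcases hx s with h0 | h0
    · exact Or.inl (by rw [h0]; rfl)
    · exact absurd h0 h

omit [Nontrivial A] in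
lemma term_cor {f : MvPolynomial σ R} (hf : IsTerm f) :
    (aeval x f, aeval (vals (R := R) x) f) ∈ cor (R := R) x := by
  obtain ⟨a, u, rfl⟩ := hf
  have h1 : (aeval x (monomial a (u : R)), aeval (vals (R := R) x) (monomial a (u : R))) =
      (((th x u : Aˣ) : A), cls (th x : Rˣ →* grp x R) (th x u)) *
        a.prod fun s k => (x s, vals (R := R) x s) ^ k := by
    rw [aeval_monomial, aeval_monomial, cls_theta]
    apply Prod.ext
    · simp only [Prod.fst_mul, Finsupp.prod, Prod.fst_prod, Prod.pow_fst]
      rfl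
    · simp only [Prod.snd_mul, Finsupp.prod, Prod.snd_prod, Prod.pow_snd]
  rw [h1, Finsupp.prod]
  refine (cor (R := R) x).mul_mem ((mem_cor (R := R) x).mpr (Or.inr ⟨th x u, rfl⟩)) ?_
  refine Finset.prod_induction _ (fun z => z ∈ cor (R := R) x)
    (fun _ _ h h' => (cor (R := R) x).mul_mem h h') (cor (R := R) x).one_mem fun s _ => ?_
  exact cor_pow (R := R) x (vals_cor (R := R) x hx s) _

omit hx in
lemma cor_zero {z : Tw (th x : Rˣ →* grp x R)} (h : ((0 : A), z) ∈ cor (R := R) x) : z = 0 := by
  rcases (mem_cor x).mp h with h1 | ⟨h, h1⟩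
  · exact congrArg Prod.snd h1
  · exact absurd (congrArg Prod.fst h1).symm h.1.ne_zero

omit hx in
lemma cor_unit {a : A} {z : Tw (th x : Rˣ →* grp x R)} (h : (a, z) ∈ cor (R := R) x)
    (ha : IsUnit a) : IsUnit z := by
  rcases (mem_cor x).mp h with h1 | ⟨h, h1⟩
  · rw [show a = 0 from congrArg Prod.fst h1] at ha
    exact absurd ha not_isUnit_zero
  · rw [show z = cls (th x) h from congrArg Prod.snd h1]
    exact (Group.isUnit h).map (cls (th x))

omit hx in
lemma cor_add {a b : A} {y z : Tw (th x : Rˣ →* grp x R)} (h : (a, y) ∈ cor (R := R) x)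
    (h' : (b, z) ∈ cor (R := R) x) (hab : a + b = 0) : y + z = 0 := by
  rcases (mem_cor x).mp h with h1 | ⟨g, h1⟩
  · have ha : a = 0 := congrArg Prod.fst h1
    have hy : y = 0 := congrArg Prod.snd h1
    rw [ha, zero_add] at hab
    rw [hab] at h'
    rw [hy, cor_zero x h', add_zero]
  · have ha : a = ((g : Aˣ) : A) := congrArg Prod.fst h1
    have hy : y = cls (th x) g := congrArg Prod.snd h1
    rcases (mem_cor x).mp h' with h2 | ⟨g', h2⟩
    · have hb : b = 0 := congrArg Prod.fst h2
      rw [ha, hb, add_zero] at hab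
      exact absurd hab g.1.ne_zero
    · have hb : b = ((g' : Aˣ) : A) := congrArg Prod.fst h2
      have hz : z = cls (th x) g' := congrArg Prod.snd h2
      have hg : g' = th x (-1) * g := by
        apply Subtype.ext
        apply Units.ext
        change ((g' : Aˣ) : A) = algebraMap R A ((-1 : Rˣ) : R) * ((g : Aˣ) : A)
        rw [Units.val_neg, Units.val_one, map_neg, map_one, ← ha, ← hb]
        linear_combination hab
      rw [hy, hz, hg, map_mul, cls_theta, Units.val_neg, Units.val_one, map_neg, map_one]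
      ring

lemma bin_vals {g : MvPolynomial σ R} (hg : IsBin g) (h0 : aeval x g = 0) :
    aeval (vals (R := R) x) g = 0 := by
  rcases hg with rfl | ht | ⟨f, f', hf, hf', rfl⟩
  · rw [map_zero]
  · have h := term_cor x hx ht
    rw [h0] at h
    exact cor_zero x h
  · rw [map_add]
    rw [map_add] at h0
    exact cor_add x (term_cor x hx hf) (term_cor x hx hf') h0

end

section

variable {κ : Type} (G : κ → MvPolynomial σ R) (w : MvPolynomial σ R) (hG : ∀ k, IsBin (G k))
  (hw : IsTerm w) (hx : ∀ s, pv G w s = 0 ∨ IsUnit (pv G w s)) [Nontrivial (Pc G w)]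

/-- to the twisted group algebra -/
noncomputable def be : Pc G w →ₐ[R] Tw (th (pv G w) : Rˣ →* grp (pv G w) R) :=
  pcLift G w (vals (R := R) (pv G w))
    (fun k => bin_vals (pv G w) hx (hG k) (by rw [pc_aeval]; exact pc_rel G w k))
    (cor_unit (pv G w) (term_cor (pv G w) hx hw) (by rw [pc_aeval]; exact pc_unit G w))

lemma be_pv (s : σ) : be G w hG hw hx (pv G w s) = vals (R := R) (pv G w) s := pcLift_pv _ _ _ _ _ _

lemma be_us (s : σ) : be G w hG hw hx (us (pv G w) s : Pc G w) =
    cls (th (pv G w) : Rˣ →* grp (pv G w) R) ⟨us (pv G w) s, us_mem (pv G w) s⟩ := by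
  by_cases h : IsUnit (pv G w s)
  · rw [us_val _ h, be_pv, vals, if_pos h]
  · have h1 : us (pv G w) s = 1 := by rw [us, dif_neg h]
    have h2 : (⟨us (pv G w) s, us_mem (pv G w) s⟩ : grp (pv G w) R) = 1 := Subtype.ext h1
    rw [h2, h1, map_one, Units.val_one, map_one]

lemma be_grp (h : grp (pv G w) R) : be G w hG hw hx ((h : (Pc G w)ˣ) : Pc G w) =
    cls (th (pv G w) : Rˣ →* grp (pv G w) R) h := by
  let m : grp (pv G w) R →* Tw (th (pv G w) : Rˣ →* grp (pv G w) R) :=
    ((be G w hG hw hx : Pc G w →* _).comp (Units.coeHom _)).comp (grp (pv G w) R).subtype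
  have key := grp_induction (R := R) (pv G w) (N := MonoidHom.eqLocus m.toHomUnits
    (cls (th (pv G w) : Rˣ →* grp (pv G w) R)).toHomUnits) (fun c => by
      change m.toHomUnits _ = (cls (th (pv G w))).toHomUnits _
      apply Units.ext
      change be G w hG hw hx (algebraMap R (Pc G w) c) = cls (th (pv G w)) (th (pv G w) c)
      rw [cls_theta, AlgHom.commutes]) (fun s => by
      change m.toHomUnits _ = (cls (th (pv G w))).toHomUnits _
      apply Units.ext
      exact be_us G w hG hw hx s) h
  exact congrArg Units.val key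

/-- The ring of functions of a piece on which every coordinate is zero or invertible is a twisted group
algebra. -/
noncomputable def pieceE : Tw (th (pv G w) : Rˣ →* grp (pv G w) R) ≃ₐ[R] Pc G w :=
  AlgEquiv.ofAlgHom (al (pv G w)) (be G w hG hw hx)
    (by
      apply pc_ext
      intro s
      rw [AlgHom.comp_apply, be_pv, vals]
      split_ifs with h
      · rw [al_cls]
        exact us_val _ h
      · rw [map_zero]
        rcases hx s with h0 | h0
        · exact h0.symm
        · exact absurd h0 h)
    (by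
      refine tw_ext (B := Tw (th (pv G w) : Rˣ →* grp (pv G w) R)) ?_
      intro h
      rw [AlgHom.comp_apply, al_cls]
      exact be_grp G w hG hw hx h)

end

section

variable {sep : Prop} {P : Sch R → Prop} (hP : Pos sep P) [Finite σ]

include hP

lemma piece_P {κ : Type} (G : κ → MvPolynomial σ R) (w : MvPolynomial σ R)
    (hG : ∀ k, IsBin (G k)) (hw : IsTerm w) (hx : ∀ s, pv G w s = 0 ∨ IsUnit (pv G w s)) :
    P (aff R (Pc G w)) := by
  rcases subsingleton_or_nontrivial (Pc G w) with h | h
  · have : Module.Finite R (Pc G w) := ⟨⟨∅, by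
      rw [eq_top_iff]
      rintro x -
      rw [Subsingleton.elim x 0]
      exact Submodule.zero_mem _⟩⟩
    exact hP.finite _
  · obtain ⟨h1, h2⟩ := tw_fg hP (th (pv G w) : Rˣ →* grp (pv G w) R) (grp_fg (pv G w))
    exact pos_alg hP (pieceE G w hG hw hx) h2

lemma strat (F : Finset σ) : ∀ {κ : Type} (G : κ → MvPolynomial σ R) (w : MvPolynomial σ R),
    (∀ k, IsBin (G k)) → IsTerm w → (∀ s ∉ F, pv G w s = 0 ∨ IsUnit (pv G w s)) →
    P (aff R (Pc G w)) := by
  classical
  induction F using Finset.induction_on with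
  | empty =>
    intro κ G w hG hw hd
    exact piece_P hP G w hG hw fun s => hd s (Finset.notMem_empty s)
  | insert s F _ ih =>
    intro κ G w hG hw hd
    have hc : P (aff R (Pc (adj G (X s)) w)) := by
      refine ih (adj G (X s)) w ?_ hw ?_
      · rintro (_ | k)
        · exact Or.inr (Or.inl (isTerm_X s))
        · exact hG k
      · intro s' hs'
        by_cases h : s' = s
        · rw [h]
          exact Or.inl (pc_rel (adj G (X s)) w none)
        · rcases hd s' (by
            rw [Finset.mem_insert, not_or]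
            exact ⟨h, hs'⟩) with h0 | h0
          · exact Or.inl (by rw [← cloF_pv G w (X s), h0, map_zero])
          · exact Or.inr (by rw [← cloF_pv G w (X s)]; exact h0.map _)
    have ho : P (aff R (Pc G (w * X s))) := by
      refine ih G (w * X s) hG (hw.mul (isTerm_X s)) ?_
      intro s' hs'
      by_cases h : s' = s
      · rw [h]
        exact Or.inr (pc_unit_right G w (X s))
      · rcases hd s' (by
          rw [Finset.mem_insert, not_or]
          exact ⟨h, hs'⟩) with h0 | h0
        · exact Or.inl (by rw [← opnF_pv G w (X s), h0, map_zero])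
        · exact Or.inr (by rw [← opnF_pv G w (X s)]; exact h0.map _)
    have h1 : Algebra.FiniteType R (Pc G w ⧸ Ideal.span {pc G w (X s)}) := inferInstance
    exact hP.total _ _ (ft_aff sep) (triple_away (pc G w (X s)))
      (pos_alg hP (cloE G w (X s)).symm hc) (pos_alg hP (opnE G w (X s)).symm ho)

/-- **Binomial schemes**: the property is true for the closed subschemes of affine spaces given by
equations which are sums of at most two terms. -/
theorem bin_P {κ : Type} (G : κ → MvPolynomial σ R) (hG : ∀ k, IsBin (G k)) :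
    P (aff R (MvPolynomial σ R ⧸ Ideal.span (Set.range G))) := by
  have := Fintype.ofFinite σ
  exact pos_alg hP (oneE G).symm (strat hP Finset.univ G 1 hG isTerm_one
    fun s hs => absurd (Finset.mem_univ s) hs)

end

end Pool.Agent.U738.BN
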