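import Pool.Agent.U738.BN.Lau
import Pool.Agent.Y116.UV.Main

/-!
# Properties of the spectra of twisted group algebras
-/

set_option autoImplicit false

namespace Pool.Agent.U738.BN

open CategoryTheory AlgebraicGeometry Pool.Agent.Y116.UV

variable {R : Type} [CommRing R]

/-- The property `P` of schemes is closed under isomorphisms and closed-open decompositions, it passes
from `X` to `X × 𝔾_m` for affine `X`, and it is true for the finite schemes over `R`. -/
structure Pos (sep : Prop) (P : Sch R → Prop) : Prop where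
  iso : ∀ {X Y : Sch R}, FT sep X → Nonempty (X ≅ Y) → P X → P Y
  total : ∀ {Z X U : Sch R} (i : Z ⟶ X) (j : U ⟶ X), FT sep X → IsTriple i j → P Z → P U → P X
  times : ∀ (A : Type) [CommRing A] [Algebra R A] [Algebra.FiniteType R A],
    P (aff R A) → P (aff R (LaurentPolynomial A))
  finite : ∀ (A : Type) [CommRing A] [Algebra R A] [Module.Finite R A], P (aff R A)

variable {sep : Prop} {P : Sch R → Prop}

lemma pos_alg (hP : Pos sep P) {A B : Type} [CommRing A] [CommRing B] [Algebra R A] [Algebra R B]
    [Algebra.FiniteType R A] (e : A ≃ₐ[R] B) (h : P (aff R A)) : P (aff R B) :=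
  hP.iso (ft_aff sep) ⟨(affIso e).symm⟩ h

lemma tw_rank (hP : Pos sep P) (n : ℕ) : ∀ (H : Type) [CommGroup H] (θ : Rˣ →* H)
    (π : H →* (Fin n → Multiplicative ℤ)), Function.Surjective π → (∀ c, π (θ c) = 1) →
    (∃ F : Finset H, ∀ x, π x = 1 → ∃ c, ∃ f ∈ F, x = θ c * f) →
    Algebra.FiniteType R (Tw θ) ∧ P (aff R (Tw θ)) := by
  classical
  induction n with
  | zero =>
    rintro H _ θ π - - ⟨F, hF⟩
    have h : Module.Finite R (Tw θ) := tw_finite F fun x => hF x (Subsingleton.elim _ _)
    exact ⟨inferInstance, hP.finite _⟩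
  | succ n ih =>
    rintro H _ θ π hs hθ ⟨F, hF⟩
    let p : H →* Multiplicative ℤ := (Pi.evalMonoidHom (fun _ : Fin (n + 1) => Multiplicative ℤ)
      (Fin.last n)).comp π
    have hp : ∀ c, p (θ c) = 1 := by
      intro c
      change π (θ c) (Fin.last n) = 1
      rw [hθ]
      rfl
    obtain ⟨t, ht⟩ := hs fun _ => Multiplicative.ofAdd 1
    have ht' : p t = Multiplicative.ofAdd 1 := by
      change π t (Fin.last n) = _
      rw [ht]
    let π' : p.ker →* (Fin n → Multiplicative ℤ) :=
      { toFun := fun k i => π k (Fin.castSucc i)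
        map_one' := by
          funext i
          simp
        map_mul' := fun a b => by
          funext i
          simp }
    have hs' : Function.Surjective π' := by
      intro f
      obtain ⟨h, hh⟩ := hs (Fin.snoc f 1)
      have h1 : h ∈ p.ker := by
        rw [MonoidHom.mem_ker]
        change π h (Fin.last n) = 1
        rw [hh, Fin.snoc_last]
      refine ⟨⟨h, h1⟩, ?_⟩
      funext i
      change π h (Fin.castSucc i) = f i
      rw [hh, Fin.snoc_castSucc]
    obtain ⟨h1, h2⟩ := ih p.ker (kerTh θ p hp) π' hs' (by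
      intro c
      funext i
      change π (θ c) (Fin.castSucc i) = 1
      rw [hθ]
      rfl) (by
      refine ⟨F.subtype (· ∈ p.ker), ?_⟩
      intro x hx
      have hx' : π x = 1 := by
        funext i
        refine Fin.lastCases ?_ (fun i => ?_) i
        · exact MonoidHom.mem_ker.mp x.2
        · exact congrFun hx i
      obtain ⟨c, f, hf, hxf⟩ := hF x hx'
      have hfk : f ∈ p.ker := by
        rw [MonoidHom.mem_ker]
        have h3 : p x = 1 := MonoidHom.mem_ker.mp x.2
        rw [hxf, map_mul, hp, one_mul] at h3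
        exact h3
      refine ⟨c, ⟨f, hfk⟩, ?_, ?_⟩
      · rw [Finset.mem_subtype]
        exact hf
      · exact Subtype.ext hxf)
    have h3 : Algebra.FiniteType R (LaurentPolynomial (Tw (kerTh θ p hp))) := ft_laurent _
    have e := (lauE θ p hp t ht').symm
    exact ⟨Algebra.FiniteType.equiv h3 e, pos_alg hP e (hP.times _ h2)⟩

/-- The twisted group algebras of groups which are finitely generated modulo the image of `θ`. -/
theorem tw_fg (hP : Pos sep P) {H : Type} [CommGroup H] (θ : Rˣ →* H)
    (hf : Group.FG (H ⧸ θ.range)) : Algebra.FiniteType R (Tw θ) ∧ P (aff R (Tw θ)) := by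
  classical
  obtain ⟨ι, j, _, _, q, hq, e, ⟨E⟩⟩ :=
    CommGroup.equiv_free_prod_prod_multiplicative_zmod (H ⧸ θ.range)
  have hfin : Finite ((i : ι) → Multiplicative (ZMod (q i ^ e i))) := by
    have : ∀ i, NeZero (q i ^ e i) := fun i => ⟨pow_ne_zero _ (hq i).ne_zero⟩
    have : ∀ i, Finite (Multiplicative (ZMod (q i ^ e i))) := fun i =>
      inferInstanceAs (Finite (ZMod (q i ^ e i)))
    exact Pi.finite
  have := Fintype.ofFinite ((i : ι) → Multiplicative (ZMod (q i ^ e i)))
  let ε := Fintype.equivFin j
  let π : H →* (Fin (Fintype.card j) → Multiplicative ℤ) :=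
    { toFun := fun x i => (E (QuotientGroup.mk x)).1 (ε.symm i)
      map_one' := by
        funext i
        simp
      map_mul' := fun a b => by
        funext i
        simp }
  have hsurj : ∀ y, ∃ x : H, E (QuotientGroup.mk x) = y := by
    intro y
    obtain ⟨x, hx⟩ := QuotientGroup.mk_surjective (E.symm y)
    exact ⟨x, by rw [hx, E.apply_symm_apply]⟩
  refine tw_rank hP _ H θ π ?_ ?_ ?_
  · intro f
    obtain ⟨x, hx⟩ := hsurj (fun i => f (ε i), 1)
    refine ⟨x, ?_⟩
    funext i
    change (E (QuotientGroup.mk x)).1 (ε.symm i) = f i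
    rw [hx]
    change f (ε (ε.symm i)) = f i
    rw [Equiv.apply_symm_apply]
  · intro c
    have h : (QuotientGroup.mk (θ c) : H ⧸ θ.range) = 1 :=
      (QuotientGroup.eq_one_iff _).mpr ⟨c, rfl⟩
    funext i
    change (E (QuotientGroup.mk (θ c))).1 (ε.symm i) = 1
    rw [h, map_one]
    rfl
  · choose g hg using hsurj
    refine ⟨Finset.univ.image fun m => g (1, m), ?_⟩
    intro x hx
    have h1 : E (QuotientGroup.mk x) = (1, (E (QuotientGroup.mk x)).2) := by
      apply Prod.ext
      · funext i
        have := congrFun hx (ε i)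
        change (E (QuotientGroup.mk x)).1 (ε.symm (ε i)) = 1 at this
        rw [Equiv.symm_apply_apply] at this
        exact this
      · rfl
    have h2 : (QuotientGroup.mk (g (1, (E (QuotientGroup.mk x)).2)) : H ⧸ θ.range) =
        QuotientGroup.mk x := by
      apply E.injective
      rw [hg, ← h1]
    obtain ⟨c, hc⟩ := QuotientGroup.eq.mp h2
    refine ⟨c, _, Finset.mem_image.mpr ⟨(E (QuotientGroup.mk x)).2, Finset.mem_univ _, rfl⟩, ?_⟩
    rw [hc, mul_comm, mul_inv_cancel_left]

end Pool.Agent.U738.BN
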