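import Pool.Agent.U738.BN.Tw
import Pool.Agent.Y116.UV.Cone

/-!
# Twisted group algebras and Laurent polynomials
-/

set_option autoImplicit false

namespace Pool.Agent.U738.BN

open LaurentPolynomial Pool.Agent.Y116.UV

variable {R : Type} [CommRing R] {H : Type} [CommGroup H] (θ : Rˣ →* H)
  (p : H →* Multiplicative ℤ) (hp : ∀ c, p (θ c) = 1) (t : H) (ht : p t = Multiplicative.ofAdd 1)

/-- `θ` as a homomorphism to the kernel of `p`. -/
def kerTh : Rˣ →* p.ker := θ.codRestrict p.ker fun c => MonoidHom.mem_ker.mpr (hp c)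

lemma kerTh_coe (c : Rˣ) : (kerTh θ p hp c : H) = θ c := rfl

/-- The projection to the kernel of `p`. -/
def kerProj : H →* p.ker where
  toFun h := ⟨h * t ^ (-(Multiplicative.toAdd (p h))), by
    rw [MonoidHom.mem_ker, map_mul, map_zpow, ht]
    apply Multiplicative.toAdd.injective
    simp⟩
  map_one' := by
    apply Subtype.ext
    simp
  map_mul' h h' := by
    apply Subtype.ext
    simp only [map_mul, toAdd_mul, Subgroup.coe_mul]
    rw [neg_add, zpow_add, mul_mul_mul_comm]

lemma kerProj_coe (h : H) : (kerProj p t ht h : H) = h * t ^ (-(Multiplicative.toAdd (p h))) := rfl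

lemma kerProj_ker (k : p.ker) : kerProj p t ht k = k := by
  apply Subtype.ext
  rw [kerProj_coe, MonoidHom.mem_ker.mp k.2]
  simp

lemma kerProj_t : kerProj p t ht t = 1 := by
  apply Subtype.ext
  rw [kerProj_coe, ht]
  simp

/-- The homomorphism to the Laurent polynomials. -/
noncomputable def chi : H →* LaurentPolynomial (Tw (kerTh θ p hp)) where
  toFun h := C (cls (kerTh θ p hp) (kerProj p t ht h)) * T (Multiplicative.toAdd (p h))
  map_one' := by
    rw [map_one, map_one, map_one, map_one, toAdd_one, T_zero, one_mul]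
  map_mul' h h' := by
    rw [map_mul, map_mul, map_mul, map_mul, toAdd_mul, T_add]
    ring

lemma chi_apply (h : H) : chi θ p hp t ht h =
    C (cls (kerTh θ p hp) (kerProj p t ht h)) * T (Multiplicative.toAdd (p h)) := rfl

lemma chi_ker (k : p.ker) : chi θ p hp t ht k = C (cls (kerTh θ p hp) k) := by
  rw [chi_apply, kerProj_ker, MonoidHom.mem_ker.mp k.2, toAdd_one, T_zero, mul_one]

lemma chi_t : chi θ p hp t ht t = T 1 := by
  rw [chi_apply, kerProj_t, map_one, map_one, one_mul, ht, toAdd_ofAdd]

lemma chi_th (c : Rˣ) : chi θ p hp t ht (θ c) =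
    algebraMap R (LaurentPolynomial (Tw (kerTh θ p hp))) c := by
  have h := chi_ker θ p hp t ht (kerTh θ p hp c)
  rw [kerTh_coe, cls_theta] at h
  rw [h]
  rfl

/-- The forward map. -/
noncomputable def lauF : Tw θ →ₐ[R] LaurentPolynomial (Tw (kerTh θ p hp)) :=
  twLift (B := LaurentPolynomial (Tw (kerTh θ p hp))) θ (chi θ p hp t ht) (chi_th θ p hp t ht)

lemma lauF_cls (h : H) : lauF θ p hp t ht (cls θ h) = chi θ p hp t ht h := twLift_cls _ _ _ _

/-- The inclusion of the twisted group algebra of the kernel. -/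
noncomputable def kerInc : Tw (kerTh θ p hp) →ₐ[R] Tw θ :=
  twLift (kerTh θ p hp) ((cls θ).comp p.ker.subtype) fun c => cls_theta θ c

lemma kerInc_cls (k : p.ker) : kerInc θ p hp (cls (kerTh θ p hp) k) = cls θ k :=
  twLift_cls _ _ _ _

/-- The inverse map. -/
noncomputable def lauG : LaurentPolynomial (Tw (kerTh θ p hp)) →ₐ[R] Tw θ where
  toRingHom := LaurentPolynomial.eval₂ (kerInc θ p hp).toRingHom ((cls θ).toHomUnits t)
  commutes' r := by
    change LaurentPolynomial.eval₂ (kerInc θ p hp).toRingHom ((cls θ).toHomUnits t)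
      (C (algebraMap R _ r)) = _
    rw [LaurentPolynomial.eval₂_C]
    exact (kerInc θ p hp).commutes r

lemma lauG_C (b : Tw (kerTh θ p hp)) : lauG θ p hp t (C b) = kerInc θ p hp b :=
  LaurentPolynomial.eval₂_C _ _ b

lemma lauG_T (n : ℤ) : lauG θ p hp t (T n) = cls θ (t ^ n) := by
  have h : lauG θ p hp t (T n) = (((cls θ).toHomUnits t ^ n : (Tw θ)ˣ) : Tw θ) :=
    LaurentPolynomial.eval₂_T _ _ n
  rw [h, ← map_zpow]
  rfl

/-- The twisted group algebra is a ring of Laurent polynomials over the one of the kernel. -/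
noncomputable def lauE : Tw θ ≃ₐ[R] LaurentPolynomial (Tw (kerTh θ p hp)) :=
  AlgEquiv.ofAlgHom (lauF θ p hp t ht) (lauG θ p hp t)
    (by
      have h : ((lauF θ p hp t ht).comp (lauG θ p hp t)).toRingHom =
          RingHom.id (LaurentPolynomial (Tw (kerTh θ p hp))) := by
        refine laurent_hom_ext (B := Tw (kerTh θ p hp))
          (C := LaurentPolynomial (Tw (kerTh θ p hp))) _ _ ?_ ?_
        · have h1 : (lauF θ p hp t ht).comp (kerInc θ p hp) =
              (IsScalarTower.toAlgHom R (Tw (kerTh θ p hp))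
                (LaurentPolynomial (Tw (kerTh θ p hp)))) := by
            refine tw_ext (B := LaurentPolynomial (Tw (kerTh θ p hp))) ?_
            intro k
            rw [AlgHom.comp_apply, kerInc_cls, lauF_cls, chi_ker]
            rfl
          intro b
          change lauF θ p hp t ht (lauG θ p hp t (C b)) = C b
          rw [lauG_C]
          exact congrArg (fun f : Tw (kerTh θ p hp) →ₐ[R]
            LaurentPolynomial (Tw (kerTh θ p hp)) => f b) h1
        · change lauF θ p hp t ht (lauG θ p hp t (T 1)) = T 1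
          rw [lauG_T, zpow_one, lauF_cls, chi_t]
      apply AlgHom.ext
      intro x
      exact congrArg (fun f : LaurentPolynomial (Tw (kerTh θ p hp)) →+*
        LaurentPolynomial (Tw (kerTh θ p hp)) => f x) h)
    (by
      apply tw_ext
      intro h
      rw [AlgHom.comp_apply, lauF_cls, chi_apply, map_mul, lauG_C, kerInc_cls, lauG_T, ← map_mul,
        kerProj_coe, mul_assoc, ← zpow_add, neg_add_cancel, zpow_zero, mul_one]
      rfl)

end Pool.Agent.U738.BN
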