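import Mathlib

/-!
# Twisted group algebras

For a commutative group `H` and a homomorphism `θ` from the units of the ring `R` to `H`, `Tw θ` is the
quotient of the group algebra `R[H]` by the relations `[θ c] = c`.
-/

set_option autoImplicit false

namespace Pool.Agent.U738.BN

open MonoidAlgebra

variable {R : Type} [CommRing R] {H : Type} [CommGroup H] (θ : Rˣ →* H)

/-- The ideal of the relations `[θ c] = c`. -/
noncomputable def twI : Ideal (MonoidAlgebra R H) :=
  Ideal.span (Set.range fun c : Rˣ => of R H (θ c) - algebraMap R (MonoidAlgebra R H) (c : R))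

/-- The group algebra with the relations `[θ c] = c`. -/
abbrev Tw : Type := MonoidAlgebra R H ⧸ twI θ

/-- The class of an element of the group. -/
noncomputable def cls : H →* Tw θ := (Ideal.Quotient.mk (twI θ) : MonoidAlgebra R H →* Tw θ).comp (of R H)

lemma cls_theta (c : Rˣ) : cls θ (θ c) = algebraMap R (Tw θ) c := by
  change Ideal.Quotient.mk (twI θ) (of R H (θ c)) =
    Ideal.Quotient.mk (twI θ) (algebraMap R (MonoidAlgebra R H) (c : R))
  rw [Ideal.Quotient.eq]
  exact Ideal.subset_span ⟨c, rfl⟩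

variable {B : Type} [CommRing B] [Algebra R B]

/-- The universal property. -/
noncomputable def twLift (ψ : H →* B) (h : ∀ c : Rˣ, ψ (θ c) = algebraMap R B c) : Tw θ →ₐ[R] B :=
  Ideal.Quotient.liftₐ (twI θ) (MonoidAlgebra.lift R B H ψ) (by
    intro a ha
    have h1 : twI θ ≤ RingHom.ker (MonoidAlgebra.lift R B H ψ) := by
      rw [twI, Ideal.span_le]
      rintro _ ⟨c, rfl⟩
      change MonoidAlgebra.lift R B H ψ _ = 0
      rw [map_sub, AlgHom.commutes, MonoidAlgebra.lift_of, h, sub_self]
    exact h1 ha)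

lemma twLift_cls (ψ : H →* B) (h : ∀ c : Rˣ, ψ (θ c) = algebraMap R B c) (x : H) :
    twLift θ ψ h (cls θ x) = ψ x := by
  change MonoidAlgebra.lift R B H ψ (of R H x) = ψ x
  rw [MonoidAlgebra.lift_of]

variable {θ}

lemma tw_ext {f g : Tw θ →ₐ[R] B} (h : ∀ x, f (cls θ x) = g (cls θ x)) : f = g := by
  apply Ideal.Quotient.algHom_ext
  apply MonoidAlgebra.algHom_ext
  · intro x
    exact h x
  · exact Subsingleton.elim (α := R →ₐ[R] B) _ _

lemma tw_span : Submodule.span R (Set.range (cls θ)) = ⊤ := by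
  rw [eq_top_iff]
  rintro x -
  obtain ⟨y, rfl⟩ := Ideal.Quotient.mk_surjective x
  induction y using MonoidAlgebra.induction_on with
  | of g => exact Submodule.subset_span ⟨g, rfl⟩
  | add a b ha hb =>
    rw [map_add]
    exact Submodule.add_mem _ ha hb
  | smul r a ha =>
    have : Ideal.Quotient.mk (twI θ) (r • a) = r • Ideal.Quotient.mk (twI θ) a := rfl
    rw [this]
    exact Submodule.smul_mem _ _ ha

/-- If `H` is finite modulo the image of `θ`, then `Tw θ` is a finite module. -/
lemma tw_finite (F : Finset H) (hF : ∀ x : H, ∃ c : Rˣ, ∃ f ∈ F, x = θ c * f) :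
    Module.Finite R (Tw θ) := by
  classical
  refine ⟨⟨F.image (cls θ), ?_⟩⟩
  rw [eq_top_iff, ← tw_span, Submodule.span_le]
  rintro _ ⟨x, rfl⟩
  obtain ⟨c, f, hf, rfl⟩ := hF x
  rw [map_mul, cls_theta, ← Algebra.smul_def]
  exact Submodule.smul_mem _ _ (Submodule.subset_span (by
    rw [Finset.coe_image]
    exact ⟨f, hf, rfl⟩))

end Pool.Agent.U738.BN
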