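import Pool.Agent.U738.BN.Down

/-!
# Algebras presented by two-term equations
-/

set_option autoImplicit false

namespace Pool.Agent.U738.BN

open MvPolynomial

/-- The `B`-algebra `A` is given by generators and equations with at most `t` terms. -/
def TermT (t : ℕ) (B A : Type) [CommRing B] [CommRing A] [Algebra B A] : Prop :=
  ∃ (n : ℕ) (φ : MvPolynomial (Fin n) B →ₐ[B] A) (G : Set (MvPolynomial (Fin n) B)),
    Function.Surjective φ ∧ (∀ f ∈ G, f.support.card ≤ t) ∧ RingHom.ker φ = Ideal.span G

section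

variable {B A B' A' : Type} [CommRing B] [CommRing A] [CommRing B'] [CommRing A']
  [Algebra B A] [Algebra B B'] [Algebra B A'] [Algebra A A'] [Algebra B' A']
  [IsScalarTower B B' A'] [IsScalarTower B A A'] {n : ℕ} (φ : MvPolynomial (Fin n) B →ₐ[B] A)

/-- the base change of a presentation -/
noncomputable def bφ (B' A' : Type) [CommRing B'] [CommRing A'] [Algebra B' A'] [Algebra A A'] :
    MvPolynomial (Fin n) B' →ₐ[B'] A' := aeval fun i => algebraMap A A' (φ (X i))

lemma bφ_map (p : MvPolynomial (Fin n) B) :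
    bφ φ B' A' (map (algebraMap B B') p) = algebraMap A A' (φ p) := by
  induction p using MvPolynomial.induction_on with
  | C a =>
    rw [map_C, ← algebraMap_eq, AlgHom.commutes, ← algebraMap_eq, AlgHom.commutes,
      ← IsScalarTower.algebraMap_apply, ← IsScalarTower.algebraMap_apply]
  | add p q hp hq => rw [map_add, map_add, map_add, map_add, hp, hq]
  | mul_X p i hp =>
    rw [map_mul, map_mul, map_mul, map_mul, hp, map_X]
    congr 1
    rw [bφ, aeval_X]

lemma card_map {t : ℕ} {f : MvPolynomial (Fin n) B} (h : f.support.card ≤ t) :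
    (map (algebraMap B B') f).support.card ≤ t :=
  (Finset.card_le_card (support_map_subset _ _)).trans h

omit [Algebra B A] [Algebra B A'] [Algebra A A'] [Algebra B' A'] [IsScalarTower B B' A']
  [IsScalarTower B A A'] in
lemma map_mem_span {G : Set (MvPolynomial (Fin n) B)} {q : MvPolynomial (Fin n) B}
    (h : q ∈ Ideal.span G) :
    map (algebraMap B B') q ∈ Ideal.span (map (algebraMap B B') '' G) := by
  rw [← Ideal.map_span]
  exact Ideal.mem_map_of_mem _ h

lemma ker_map {G : Set (MvPolynomial (Fin n) B)} (hK : RingHom.ker φ = Ideal.span G) :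
    Ideal.span (map (algebraMap B B') '' G) ≤ RingHom.ker (bφ φ B' A') := by
  refine Ideal.span_le.mpr ?_
  rintro _ ⟨g, hg, rfl⟩
  change bφ φ B' A' _ = 0
  have h : φ g = 0 := by
    have : g ∈ RingHom.ker φ := by
      rw [hK]
      exact Ideal.subset_span hg
    exact this
  rw [bφ_map, h, map_zero]

/-- closed subschemes of the base -/
lemma quot_ker {G : Set (MvPolynomial (Fin n) B)} (hK : RingHom.ker φ = Ideal.span G) (b : B)
    (hs : Function.Surjective φ)
    (hB : Function.Surjective (algebraMap B B')) (hb : algebraMap B B' b = 0)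
    (hk : ∀ a : A, algebraMap A A' a = 0 → ∃ a', a = algebraMap B A b * a') :
    RingHom.ker (bφ φ B' A') = Ideal.span (map (algebraMap B B') '' G) := by
  refine le_antisymm ?_ (ker_map φ hK)
  intro q' hq'
  obtain ⟨q, rfl⟩ := map_surjective (algebraMap B B') hB q'
  have h1 : algebraMap A A' (φ q) = 0 := by
    rw [← bφ_map (B' := B')]
    exact hq'
  obtain ⟨a', ha'⟩ := hk _ h1
  obtain ⟨s, rfl⟩ := hs a'
  have h2 : q - C b * s ∈ Ideal.span G := by
    rw [← hK]
    change φ _ = 0
    rw [map_sub, map_mul, ha', ← algebraMap_eq, AlgHom.commutes, sub_self]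
  have h3 := map_mem_span (B' := B') h2
  rwa [map_sub, map_mul, map_C, hb, C_0, zero_mul, sub_zero] at h3

lemma quot_surj (hs : Function.Surjective φ) (hA : Function.Surjective (algebraMap A A')) :
    Function.Surjective (bφ φ B' A') := by
  intro a'
  obtain ⟨a, rfl⟩ := hA a'
  obtain ⟨p, rfl⟩ := hs a
  exact ⟨map (algebraMap B B') p, bφ_map φ p⟩

section loc

variable (b : B) (hb : IsLocalization.Away b B') (ha : IsLocalization.Away (algebraMap B A b) A')

include hb ha

lemma loc_surj (hs : Function.Surjective φ) : Function.Surjective (bφ φ B' A') := by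
  intro a'
  obtain ⟨k, a, hk⟩ := IsLocalization.Away.surj (algebraMap B A b) a'
  obtain ⟨p, rfl⟩ := hs a
  obtain ⟨u, hu⟩ := (IsLocalization.Away.algebraMap_isUnit b : IsUnit (algebraMap B B' b)).exists_right_inv
  refine ⟨C (u ^ k) * map (algebraMap B B') p, ?_⟩
  rw [map_mul, bφ_map, ← hk, ← algebraMap_eq, AlgHom.commutes, ← IsScalarTower.algebraMap_apply,
    IsScalarTower.algebraMap_apply B B' A', ← map_pow, mul_comm a', ← mul_assoc, ← map_mul,
    ← mul_pow, mul_comm u, hu, one_pow, map_one, one_mul]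

lemma loc_ker {G : Set (MvPolynomial (Fin n) B)} (hK : RingHom.ker φ = Ideal.span G) :
    RingHom.ker (bφ φ B' A') = Ideal.span (map (algebraMap B B') '' G) := by
  refine le_antisymm ?_ (ker_map φ hK)
  intro q' hq'
  obtain ⟨u, hu⟩ := (IsLocalization.Away.algebraMap_isUnit b : IsUnit (algebraMap B B' b)).exists_right_inv
  -- clear denominators
  obtain ⟨k, q, hq⟩ : ∃ (k : ℕ) (q : MvPolynomial (Fin n) B),
      C (algebraMap B B' b ^ k) * q' = map (algebraMap B B') q := by
    clear hq'
    induction q' using MvPolynomial.induction_on with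
    | C a =>
      obtain ⟨k, c, hk⟩ := IsLocalization.Away.surj b a
      refine ⟨k, C c, ?_⟩
      rw [← C_mul, mul_comm, hk, map_C]
    | add p q hp hq =>
      obtain ⟨k, p', hp'⟩ := hp
      obtain ⟨l, q'', hq''⟩ := hq
      refine ⟨k + l, C (b ^ l) * p' + C (b ^ k) * q'', ?_⟩
      rw [map_add, map_mul, map_mul, ← hp', ← hq'', map_C, map_C]
      simp only [map_pow]
      ring
    | mul_X p i hp =>
      obtain ⟨k, p', hp'⟩ := hp
      refine ⟨k, p' * X i, ?_⟩
      rw [map_mul, map_X, ← hp', mul_assoc]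
  have h1 : algebraMap A A' (φ q) = 0 := by
    rw [← bφ_map (B' := B'), ← hq, map_mul]
    have : bφ φ B' A' q' = 0 := hq'
    rw [this, mul_zero]
  obtain ⟨m, hm⟩ : ∃ m : ℕ, algebraMap B A b ^ m * φ q = 0 := by
    have h2 := (IsLocalization.map_eq_zero_iff (Submonoid.powers (algebraMap B A b)) A' (φ q)).mp h1
    obtain ⟨⟨_, m, rfl⟩, hm⟩ := h2
    exact ⟨m, hm⟩
  have h3 : C (b ^ m) * q ∈ Ideal.span G := by
    rw [← hK]
    change φ _ = 0
    rw [map_mul, ← algebraMap_eq, AlgHom.commutes, map_pow, hm]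
  have h4 := map_mem_span (B' := B') h3
  rw [map_mul, map_C, ← hq] at h4
  have h5 := Ideal.mul_mem_left (Ideal.span (map (algebraMap B B') '' G)) (C (u ^ (m + k))) h4
  have h6 : C (u ^ (m + k)) * (C (algebraMap B B' (b ^ m)) * (C (algebraMap B B' b ^ k) * q')) =
      q' := by
    rw [← mul_assoc, ← mul_assoc, ← C_mul, ← C_mul, map_pow, mul_assoc, ← pow_add, ← mul_pow,
      mul_comm u, hu, one_pow, C_1, one_mul]
  rwa [h6] at h5

end loc

end

end Pool.Agent.U738.BN
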